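import Mathlib
import Pool.Agent.J4.H38.DV.Fin

/-!
# Sums of a prime from an ARBITRARY dense set of primes and of an integer with at most two prime factors

Goldbach's conjecture: every even `N > 2` is a sum of two primes. Chen: every large even `N` is a sum of a prime and of a `P_2`.
Here the prime is taken from an ARBITRARY set `P` of a positive proportion of the primes `p ≤ N`. Because of the local
obstructions one has to restrict to the multiples of a fixed number `W`, which depends only on the density (`P` may, for instance, be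
a set of primes in one residue class). For EVERY large `N` and almost all multiples `m` of `W` in the very short
interval `(N, N + H]`, where `H` is only a large multiple of `log N`, there are at least `c #P / log N` primes `p` in `P` such
that `m - p` has at most two prime factors, with an absolute constant `c > 0`; and for almost all sets of `k` such multiples `m₁, .., m_k`
there are at least `c ^ k #P / (log N) ^ k` primes `p` in `P` such that ALL the `m_i - p` have at most two prime factors.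
The exceptional sets depend on `P`, the number `N₀` does not.

Method: for almost all shifts the integers `m - p` are as often free of small prime factors as for a random set `P`: by duality
this follows from the pair correlations of the sifted sets `{n : m_i - n without small prime factors}` relative to ALL primes, which
are nearly orthogonal for multiples of `W`. Then Richert's weighted sieve of level `111/200 > 1/2` and the large sieve inequality for
the shifts, for an arbitrary bounded weight in place of the primes.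
-/

set_option autoImplicit false

namespace Pool.Agent.Results.MP_7b7e48_nt.ChenDensePrimes

open Finset Filter

/-- the multiples of `W` in `(N, N + H]` -/
def multiples (W N H : ℕ) : Finset ℕ := (Ioc N (N + H)).filter (fun m => W ∣ m)

open Classical in
/-- the number of the `p` in `P` such that every `m - p`, `m ∈ M`, is an integer `> 1` with at most two prime factors (counted
with multiplicity), all of them at least `N ^ (1/7)` -/
noncomputable def count (N : ℕ) (P M : Finset ℕ) : ℕ :=
  (P.filter (fun p => ∀ m ∈ M, 1 < m - p ∧ (m - p).primeFactorsList.length ≤ 2 ∧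
    ∀ q ∈ (m - p).primeFactors, (N : ℝ) ^ (1 / 7 : ℝ) ≤ q)).card

section
open Pool.Agent.J4.H38.DV
open Pool.Agent.H373R2.T7 (pz mem_pz)

/-- the product of the primes up to `w` -/
lemma W_pos (w : ℕ) : 1 ≤ ∏ p ∈ pz w, p := prod_pos fun _ hp => (mem_pz.1 hp).2.pos

/-- the number of the multiples -/
lemma card_multiples {W : ℕ} (hW : 1 ≤ W) (N H : ℕ) :
    ((multiples W N H).card : ℝ) ≤ H / W + 1 ∧ (H : ℝ) / W - 1 ≤ (multiples W N H).card := by
  have hWr : (0 : ℝ) < W := by exact_mod_cast hW
  have h1 : (multiples W N H).card + N / W = (N + H) / W := by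
    unfold multiples
    rw [← Nat.Ioc_filter_dvd_card_eq_div N W, ← Nat.Ioc_filter_dvd_card_eq_div (N + H) W,
      ← card_union_of_disjoint]
    · congr 1
      ext m
      simp only [mem_union, mem_filter, mem_Ioc]
      constructor
      · rintro (⟨⟨h1, h2⟩, h3⟩ | ⟨⟨h1, h2⟩, h3⟩)
        · exact ⟨⟨by omega, h2⟩, h3⟩
        · exact ⟨⟨h1, by omega⟩, h3⟩
      · rintro ⟨⟨h1, h2⟩, h3⟩
        by_cases h : N < m
        · exact Or.inl ⟨⟨h, h2⟩, h3⟩
        · exact Or.inr ⟨⟨h1, by omega⟩, h3⟩
    · rw [disjoint_left]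
      intro m hm hm'
      have h1 := (mem_Ioc.1 (mem_filter.1 hm).1).1
      have h2 := (mem_Ioc.1 (mem_filter.1 hm').1).2
      omega
  have h2 : (((N + H) / W : ℕ) : ℝ) ≤ ((N : ℝ) + H) / W := by
    have := Nat.cast_div_le (α := ℝ) (m := N + H) (n := W)
    push_cast at this
    exact this
  have h3 : (N : ℝ) / W ≤ ((N / W : ℕ) : ℝ) + 1 := by
    rw [div_le_iff₀ hWr]
    have := Nat.lt_div_mul_add (a := N) hW
    have h4 : (N : ℝ) ≤ ((N / W * W + W : ℕ) : ℝ) := by exact_mod_cast this.le
    push_cast at h4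
    linarith
  have h4 : ((multiples W N H).card : ℝ) + ((N / W : ℕ) : ℝ) = (((N + H) / W : ℕ) : ℝ) := by exact_mod_cast h1
  rw [add_div] at h2
  refine ⟨by linarith, ?_⟩
  have h5 : ((N : ℝ) + H) / W ≤ (((N + H) / W : ℕ) : ℝ) + 1 := by
    rw [div_le_iff₀ hWr]
    have := Nat.lt_div_mul_add (a := N + H) hW
    have h4 : ((N + H : ℕ) : ℝ) ≤ (((N + H) / W * W + W : ℕ) : ℝ) := by exact_mod_cast this.le
    push_cast at h4
    linarith
  have h6 : ((N / W : ℕ) : ℝ) ≤ (N : ℝ) / W := Nat.cast_div_le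
  rw [add_div] at h5
  linarith

/-- the shifts -/
lemma multiples_eq (w N H : ℕ) : (AW w N H).image (fun t => N + t) = multiples (∏ p ∈ pz w, p) N H := by
  ext m
  unfold AW multiples
  rw [mem_image, mem_filter, mem_Ioc]
  constructor
  · rintro ⟨t, ht, rfl⟩
    rw [mem_filter, mem_Icc] at ht
    exact ⟨⟨by omega, by omega⟩, ht.2⟩
  · rintro ⟨⟨h1, h2⟩, h3⟩
    refine ⟨m - N, ?_, by omega⟩
    rw [mem_filter, mem_Icc, show N + (m - N) = m by omega]
    exact ⟨⟨by omega, by omega⟩, h3⟩

/-- reflection -/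
lemma piD_le {N : ℕ} {P M : Finset ℕ} (hM : ∀ m ∈ M, N < m) :
    piD P (M.image (fun m => m - N)) N ≤ count N P M := by
  classical
  unfold piD count
  refine card_le_card_of_injOn (fun n => N - n) (fun n hn => ?_) fun n hn n' hn' h => ?_
  · rw [mem_coe, mem_filter, mem_Icc] at hn
    rw [mem_coe, mem_filter]
    obtain ⟨⟨h1, h2⟩, h3, h4⟩ := hn
    refine ⟨h3, fun m hm => ?_⟩
    have hNm := hM m hm
    have e : m - (N - n) = n + (m - N) := by omega
    simp only
    rw [e]
    exact ⟨by omega, h4 _ (mem_image_of_mem _ hm)⟩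
  · rw [mem_coe, mem_filter, mem_Icc] at hn hn'
    simp only at h
    omega

/-- the main theorem for sets of multiples -/
lemma core : ∃ c : ℝ, 0 < c ∧ ∀ k : ℕ, 1 ≤ k → ∀ δ ε : ℝ, 0 < δ → 0 < ε → ∃ (W : ℕ) (Λ : ℝ) (N₀ : ℕ), 1 ≤ W ∧
    2 ∣ W ∧ 0 < Λ ∧ ∀ N : ℕ, N₀ ≤ N → ∀ P ⊆ (Icc 1 N).filter Nat.Prime, δ * (N / Real.log N) ≤ P.card →
    ∀ H : ℕ, Λ * Real.log N ≤ H → H ≤ N → ∀ Bad : Finset (Finset ℕ),
    (∀ M ∈ Bad, M ∈ (multiples W N H).powersetCard k ∧ (count N P M : ℝ) < c ^ k * (P.card / Real.log N ^ k)) →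
    (Bad.card : ℝ) ≤ ε * ((multiples W N H).card : ℝ) ^ k := by
  classical
  obtain ⟨c, hc, hmain⟩ := denseG
  refine ⟨c, hc, fun k hk δ ε hδ hε => ?_⟩
  obtain ⟨j, rfl⟩ : ∃ j, k = j + 1 := ⟨k - 1, by omega⟩
  obtain ⟨w, hw, Λ, hΛ, h⟩ := hmain j δ ε hδ hε
  obtain ⟨N₀, hN₀⟩ := eventually_atTop.1 h
  refine ⟨∏ p ∈ pz w, p, Λ, N₀, W_pos w, dvd_prod_of_mem _ (mem_pz.2 ⟨hw, Nat.prime_two⟩), hΛ,
    fun N hN P hP hPc H hH1 hH2 Bad hBad => ?_⟩
  have hinjN : Function.Injective (fun t : ℕ => N + t) := fun a b h => by simpa using h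
  have hcard : (multiples (∏ p ∈ pz w, p) N H).card = (AW w N H).card := by
    rw [← multiples_eq, card_image_of_injective _ hinjN]
  have hMN : ∀ M ∈ Bad, ∀ m ∈ M, N < m := fun M hM m hm =>
    (mem_Ioc.1 (mem_filter.1 ((mem_powersetCard.1 (hBad M hM).1).1 hm)).1).1
  have hinj : Set.InjOn (fun M : Finset ℕ => M.image (fun m => m - N)) (Bad : Set (Finset ℕ)) := by
    intro M hM M' hM' hE
    have key : ∀ M ∈ Bad, (M.image (fun m => m - N)).image (fun t => N + t) = M := by
      intro M hM
      rw [image_image]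
      conv_rhs => rw [← image_id (s := M)]
      refine image_congr fun m hm => ?_
      have := hMN M hM m hm
      simp only [Function.comp, id]
      omega
    have h1 := congrArg (fun D : Finset ℕ => D.image (fun t => N + t)) hE
    simp only at h1
    rwa [key M hM, key M' hM'] at h1
  have h1 := hN₀ N hN H hH1 hH2 P hP hPc (Bad.image (fun M : Finset ℕ => M.image (fun m => m - N))) ?_
  · rw [card_image_of_injOn hinj] at h1
    rw [hcard]
    exact h1
  · intro D hD
    obtain ⟨M, hM, rfl⟩ := mem_image.1 hD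
    obtain ⟨b1, b2⟩ := hBad M hM
    rw [mem_powersetCard] at b1
    refine ⟨?_, lt_of_le_of_lt ?_ b2⟩
    · rw [mem_powersetCard]
      refine ⟨?_, ?_⟩
      · intro t ht
        obtain ⟨m, hm, rfl⟩ := mem_image.1 ht
        have h2 := b1.1 hm
        rw [← multiples_eq, mem_image] at h2
        obtain ⟨t, ht, h3⟩ := h2
        have h4 : m - N = t := by omega
        rw [h4]
        exact ht
      · rw [card_image_of_injOn, b1.2]
        intro a ha b hb hE
        have h2 := hMN M hM a ha
        have h3 := hMN M hM b hb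
        simp only at hE
        omega
    · exact_mod_cast piD_le (hMN M hM)

end

open Classical in
/-- **Every positive proportion of the primes.**

(1) There is an absolute constant `c > 0` such that for all `k ≥ 1` and `δ, ε > 0` there are an even `W ≥ 1`, `Λ` and `N₀` with
the following property. Let `N ≥ N₀`, let `P` be ANY set of at least `δ N / log N` primes `p ≤ N`, and `Λ log N ≤ H ≤ N`. Then for
all but at most `ε (H / W) ^ k` of the sets `M` of `k` multiples of `W` in `(N, N + H]` there are at least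
`c ^ k #P / (log N) ^ k` primes `p` in `P` such that all the `m - p`, `m ∈ M`, have at most two prime factors, all of them at
least `N ^ (1/7)`. (There are between `H / W - 1` and `H / W + 1` multiples of `W` in `(N, N + H]`, part 3.)

(2) In particular, for all `k ≥ 1` and `δ > 0` there are `c' > 0`, `Λ`, `N₀` such that for all `N ≥ N₀`, ANY set `P` of at least
`δ N / log N` primes `p ≤ N`, and `Λ log N ≤ H ≤ N`, for at least `c' H ^ k` of the sets `M` of `k` even numbers in `(N, N + H]`
there are at least `c' N / (log N) ^ (k + 1)` primes `p` in `P` with this property. -/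
theorem result :
    (∃ c : ℝ, 0 < c ∧ ∀ k : ℕ, 1 ≤ k → ∀ δ ε : ℝ, 0 < δ → 0 < ε → ∃ (W : ℕ) (Λ : ℝ) (N₀ : ℕ), 1 ≤ W ∧ 2 ∣ W ∧ 0 < Λ ∧
      ∀ N : ℕ, N₀ ≤ N → ∀ P ⊆ (Icc 1 N).filter Nat.Prime, δ * (N / Real.log N) ≤ P.card →
      ∀ H : ℕ, Λ * Real.log N ≤ H → H ≤ N →
        ((((multiples W N H).powersetCard k).filter (fun M =>
          (count N P M : ℝ) < c ^ k * (P.card / Real.log N ^ k))).card : ℝ) ≤ ε * ((H : ℝ) / W) ^ k) ∧
    (∀ k : ℕ, 1 ≤ k → ∀ δ : ℝ, 0 < δ → ∃ (c' Λ : ℝ) (N₀ : ℕ), 0 < c' ∧ 0 < Λ ∧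
      ∀ N : ℕ, N₀ ≤ N → ∀ P ⊆ (Icc 1 N).filter Nat.Prime, δ * (N / Real.log N) ≤ P.card →
      ∀ H : ℕ, Λ * Real.log N ≤ H → H ≤ N →
        c' * (H : ℝ) ^ k ≤ ((((multiples 2 N H).powersetCard k).filter (fun M =>
          c' * (N / Real.log N ^ (k + 1)) ≤ count N P M)).card : ℝ)) ∧
    ∀ W N H : ℕ, 1 ≤ W → (H : ℝ) / W - 1 ≤ (multiples W N H).card ∧ ((multiples W N H).card : ℝ) ≤ H / W + 1 := by
  obtain ⟨c, hc, hmain⟩ := core
  have hlim : Tendsto (fun N : ℕ => Real.log (N : ℝ)) atTop atTop :=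
    Real.tendsto_log_atTop.comp (tendsto_natCast_atTop_atTop (R := ℝ))
  obtain ⟨N₁, hN₁⟩ := eventually_atTop.1 (hlim.eventually_ge_atTop 1)
  refine ⟨⟨c, hc, fun k hk δ ε hδ hε => ?_⟩, fun k hk δ hδ => ?_, fun W N H hW =>
    ⟨(card_multiples hW N H).2, (card_multiples hW N H).1⟩⟩
  · obtain ⟨W, Λ, N₀, hW, hW2, hΛ, h⟩ := hmain k hk δ (ε / 2 ^ k) hδ (by positivity)
    have hWr : (0 : ℝ) < W := by exact_mod_cast hW
    refine ⟨W, max Λ W, max N₀ N₁, hW, hW2, lt_max_of_lt_left hΛ, fun N hN P hP hPc H hH1 hH2 => ?_⟩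
    have hL1 := hN₁ N ((le_max_right _ _).trans hN)
    have hHΛ : Λ * Real.log N ≤ H := (mul_le_mul_of_nonneg_right (le_max_left _ _) (by linarith)).trans hH1
    have hHW : (W : ℝ) ≤ H := by
      calc (W : ℝ) = W * 1 := (mul_one _).symm
        _ ≤ W * Real.log N := mul_le_mul_of_nonneg_left hL1 hWr.le
        _ ≤ max Λ W * Real.log N := mul_le_mul_of_nonneg_right (le_max_right _ _) (by linarith)
        _ ≤ H := hH1
    refine (h N ((le_max_left _ _).trans hN) P hP hPc H hHΛ hH2 _ fun M hM => mem_filter.1 hM).trans ?_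
    have h1 : (1 : ℝ) ≤ H / W := by rwa [le_div_iff₀ hWr, one_mul]
    have h2 := (card_multiples hW N H).1
    have h3 : ((multiples W N H).card : ℝ) ^ k ≤ (2 * ((H : ℝ) / W)) ^ k :=
      pow_le_pow_left₀ (Nat.cast_nonneg _) (by linarith) k
    calc ε / 2 ^ k * ((multiples W N H).card : ℝ) ^ k ≤ ε / 2 ^ k * (2 * ((H : ℝ) / W)) ^ k :=
          mul_le_mul_of_nonneg_left h3 (by positivity)
      _ = ε * ((H : ℝ) / W) ^ k := by
          rw [mul_pow]
          field_simp
  · obtain ⟨W, Λ, N₀, hW, hW2, hΛ, h⟩ := hmain k hk δ (1 / (2 * 2 ^ k * (k.factorial : ℝ))) hδ (by positivity)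
    have hWr : (1 : ℝ) ≤ W := by exact_mod_cast hW
    have hkr : (1 : ℝ) ≤ k := by exact_mod_cast hk
    refine ⟨min (c ^ k * δ) (1 / (2 * 2 ^ k * (k.factorial : ℝ)) * (1 / (2 * W)) ^ k), max Λ (W * (2 * k + 1)),
      max N₀ N₁, lt_min (by positivity) (by positivity), lt_max_of_lt_left hΛ, fun N hN P hP hPc H hH1 hH2 => ?_⟩
    have hL1 := hN₁ N ((le_max_right _ _).trans hN)
    have hL0 : 0 < Real.log N := by linarith
    have hHΛ : Λ * Real.log N ≤ H := (mul_le_mul_of_nonneg_right (le_max_left _ _) (by linarith)).trans hH1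
    have hHW : (W : ℝ) * (2 * k + 1) ≤ H := by
      calc (W : ℝ) * (2 * k + 1) = (W * (2 * k + 1)) * 1 := (mul_one _).symm
        _ ≤ (W * (2 * k + 1)) * Real.log N := mul_le_mul_of_nonneg_left hL1 (by positivity)
        _ ≤ max Λ (W * (2 * k + 1)) * Real.log N := mul_le_mul_of_nonneg_right (le_max_right _ _) (by linarith)
        _ ≤ H := hH1
    have hHW' : (2 : ℝ) * k + 1 ≤ H / W := by rwa [le_div_iff₀ (by linarith), mul_comm]
    obtain ⟨q, hq⟩ : ∃ q : ℕ, q = (multiples W N H).card := ⟨_, rfl⟩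
    have hq1 : (H : ℝ) / W - 1 ≤ q := by rw [hq]; exact (card_multiples hW N H).2
    have hq2 : 2 * (k : ℝ) ≤ q := by linarith
    have hq3 : 2 * k ≤ q := by exact_mod_cast hq2
    have hq4 : (1 / (2 * W) : ℝ) * H ≤ q := by
      have : (1 / (2 * W) : ℝ) * H = (H / W) / 2 := by field_simp
      rw [this]
      linarith
    obtain ⟨B, hB⟩ : ∃ B, B = ((multiples W N H).powersetCard k).filter (fun M =>
          (count N P M : ℝ) < c ^ k * (P.card / Real.log N ^ k)) := ⟨_, rfl⟩
    have hBc : (B.card : ℝ) ≤ 1 / (2 * 2 ^ k * (k.factorial : ℝ)) * (q : ℝ) ^ k := by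
      rw [hq, hB]
      exact h N ((le_max_left _ _).trans hN) P hP hPc H hHΛ hH2 _ fun M hM => mem_filter.1 hM
    have hT : (1 / (2 ^ k * (k.factorial : ℝ))) * (q : ℝ) ^ k ≤ (((multiples W N H).powersetCard k).card : ℝ) := by
      rw [card_powersetCard, ← hq]
      have h1 := Nat.pow_le_choose (α := ℝ) k q
      refine le_trans ?_ h1
      have h2 : ((q : ℝ) / 2) ^ k ≤ ((q + 1 - k : ℕ) : ℝ) ^ k := by
        refine pow_le_pow_left₀ (by positivity) ?_ k
        rw [Nat.cast_sub (by omega)]
        push_cast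
        linarith
      calc (1 / (2 ^ k * (k.factorial : ℝ))) * (q : ℝ) ^ k = ((q : ℝ) / 2) ^ k / (k.factorial : ℝ) := by
            rw [div_pow]
            field_simp
        _ ≤ _ := div_le_div_of_nonneg_right h2 (by positivity)
    have hsub : (multiples W N H).powersetCard k \ B ⊆ ((multiples 2 N H).powersetCard k).filter (fun M =>
          min (c ^ k * δ) (1 / (2 * 2 ^ k * (k.factorial : ℝ)) * (1 / (2 * W)) ^ k) * (N / Real.log N ^ (k + 1)) ≤
            count N P M) := by
      intro M hM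
      rw [Finset.mem_sdiff] at hM
      obtain ⟨h1, h2⟩ := hM
      rw [mem_filter]
      refine ⟨?_, ?_⟩
      · rw [mem_powersetCard] at h1 ⊢
        refine ⟨fun m hm => ?_, h1.2⟩
        have h3 := h1.1 hm
        unfold multiples at h3 ⊢
        rw [mem_filter] at h3 ⊢
        exact ⟨h3.1, hW2.trans h3.2⟩
      · have h4 : ¬ (count N P M : ℝ) < c ^ k * (P.card / Real.log N ^ k) := fun h5 =>
          h2 (by rw [hB, mem_filter]; exact ⟨h1, h5⟩)
        rw [not_lt] at h4
        refine le_trans ?_ h4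
        have h6 : δ * (N / Real.log N ^ (k + 1)) ≤ P.card / Real.log N ^ k := by
          rw [pow_succ, le_div_iff₀ (by positivity)]
          refine le_trans (le_of_eq ?_) hPc
          field_simp
        calc _ ≤ c ^ k * δ * (N / Real.log N ^ (k + 1)) :=
              mul_le_mul_of_nonneg_right (min_le_left _ _) (by positivity)
          _ = c ^ k * (δ * (N / Real.log N ^ (k + 1))) := by ring
          _ ≤ _ := mul_le_mul_of_nonneg_left h6 (by positivity)
    have h1 := card_le_card hsub
    have h2 : ((multiples W N H).powersetCard k).card ≤ ((multiples W N H).powersetCard k \ B).card + B.card := by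
      have := le_card_sdiff B ((multiples W N H).powersetCard k)
      omega
    have h3 : (((multiples W N H).powersetCard k).card : ℝ) ≤
        ((((multiples 2 N H).powersetCard k).filter (fun M =>
          min (c ^ k * δ) (1 / (2 * 2 ^ k * (k.factorial : ℝ)) * (1 / (2 * W)) ^ k) * (N / Real.log N ^ (k + 1)) ≤
            count N P M)).card : ℝ) + B.card := by
      exact_mod_cast h2.trans (Nat.add_le_add_right h1 _)
    have h4 : 1 / (2 * 2 ^ k * (k.factorial : ℝ)) * (q : ℝ) ^ k ≤
        ((((multiples 2 N H).powersetCard k).filter (fun M =>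
          min (c ^ k * δ) (1 / (2 * 2 ^ k * (k.factorial : ℝ)) * (1 / (2 * W)) ^ k) * (N / Real.log N ^ (k + 1)) ≤
            count N P M)).card : ℝ) := by
      have h5 : 1 / (2 ^ k * (k.factorial : ℝ)) * (q : ℝ) ^ k = 2 * (1 / (2 * 2 ^ k * (k.factorial : ℝ)) * (q : ℝ) ^ k) := by
        field_simp
      linarith
    refine le_trans ?_ h4
    have h5 : ((1 / (2 * W) : ℝ) * H) ^ k ≤ (q : ℝ) ^ k := pow_le_pow_left₀ (by positivity) hq4 k
    calc min (c ^ k * δ) (1 / (2 * 2 ^ k * (k.factorial : ℝ)) * (1 / (2 * W)) ^ k) * (H : ℝ) ^ k ≤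
          1 / (2 * 2 ^ k * (k.factorial : ℝ)) * (1 / (2 * W)) ^ k * (H : ℝ) ^ k :=
            mul_le_mul_of_nonneg_right (min_le_right _ _) (by positivity)
      _ = 1 / (2 * 2 ^ k * (k.factorial : ℝ)) * ((1 / (2 * W) : ℝ) * H) ^ k := by rw [mul_pow]; ring
      _ ≤ _ := mul_le_mul_of_nonneg_left h5 (by positivity)

end Pool.Agent.Results.MP_7b7e48_nt.ChenDensePrimes
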