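import Mathlib
import Pool.Agent.J4.H38.DV.TFin

/-!
# Almost prime tuples with short shifts in EVERY positive proportion of the primes

The problem asks for the number of the `m ≤ x` such that `m` and all `m + d`, `d ∈ D`, are prime, uniformly for the sets `D` of `k`
short shifts. Here `m` is a prime from an ARBITRARY set `P` of a positive proportion of the primes `p ≤ x`. Because of the local
obstructions one has to restrict the shifts to the multiples of a fixed number `W`, which depends only on the density (`P` may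
be a set of primes in one residue class). For almost all sets `D` of `k` multiples of `W` in `[1, H]`, where `H` is only a large
multiple of `log x`, there are at least `c ^ k #P / (log x) ^ k` primes `p` in `P` such that ALL the `p + d`, `d ∈ D`, have at most two
prime factors, with an absolute constant `c > 0`. The exceptional sets `D` depend on `P`, the bound `x₀` does not.

Method: for almost all shifts the integers `p + d`, `p ∈ P`, are as often free of small prime factors as for a random set `P`: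
by duality this follows from the pair correlations of the sifted sets `{n : n + d without small prime factors}` relative to ALL
primes, which are nearly orthogonal for multiples of `W`. Then Richert's weighted sieve of level `111/200 > 1/2` and the large
sieve inequality for the shifts (`Pool.Agent.J4.H38.SR3.Fx`), for an arbitrary bounded weight in place of the primes.
-/

set_option autoImplicit false

namespace Pool.Agent.Results.MP_485179_nt.DensePrimes

open Finset Filter

/-- the multiples of `W` in `[1, H]` -/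
def multiples (W H : ℕ) : Finset ℕ := (Icc 1 H).filter (fun d => W ∣ d)

open Classical in
/-- the number of the `p` in `P` such that every `p + d`, `d ∈ D`, has at most two prime factors (counted with
multiplicity), all of them at least `x ^ (1/7)` -/
noncomputable def count (x : ℕ) (P D : Finset ℕ) : ℕ :=
  (P.filter (fun p => ∀ d ∈ D, (p + d).primeFactorsList.length ≤ 2 ∧
    ∀ q ∈ (p + d).primeFactors, (x : ℝ) ^ (1 / 7 : ℝ) ≤ q)).card

section
open Pool.Agent.J4.H38.DV
open Pool.Agent.H373R2.T7 (pz mem_pz)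

/-- the product of the primes up to `w` -/
lemma W_pos (w : ℕ) : 1 ≤ ∏ p ∈ pz w, p := prod_pos fun _ hp => (mem_pz.1 hp).2.pos

lemma multiples_eq (w H : ℕ) : multiples (∏ p ∈ pz w, p) H = AW w 0 H := by
  unfold multiples AW
  refine filter_congr fun t _ => ?_
  rw [zero_add]

/-- the number of the multiples -/
lemma card_multiples {W : ℕ} (hW : 1 ≤ W) (H : ℕ) :
    ((multiples W H).card : ℝ) ≤ H / W ∧ (H : ℝ) / W - 1 ≤ (multiples W H).card := by
  have hWr : (0 : ℝ) < W := by exact_mod_cast hW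
  have h1 : (multiples W H).card = H / W := by
    unfold multiples
    rw [← Nat.Ioc_filter_dvd_card_eq_div H W]
    rfl
  have h3 : (H : ℝ) / W ≤ ((H / W : ℕ) : ℝ) + 1 := by
    rw [div_le_iff₀ hWr]
    have := Nat.lt_div_mul_add (a := H) hW
    have h4 : (H : ℝ) ≤ ((H / W * W + W : ℕ) : ℝ) := by exact_mod_cast this.le
    push_cast at h4
    linarith
  rw [h1]
  exact ⟨Nat.cast_div_le, by linarith⟩

/-- the main theorem for sets of multiples -/
lemma core : ∃ c : ℝ, 0 < c ∧ ∀ k : ℕ, 1 ≤ k → ∀ δ ε : ℝ, 0 < δ → 0 < ε → ∃ (W : ℕ) (Λ : ℝ) (x₀ : ℕ), 1 ≤ W ∧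
    2 ∣ W ∧ 0 < Λ ∧ ∀ x : ℕ, x₀ ≤ x → ∀ P ⊆ (Icc 1 x).filter Nat.Prime, δ * (x / Real.log x) ≤ P.card →
    ∀ H : ℕ, Λ * Real.log x ≤ H → H ≤ x → ∀ Bad : Finset (Finset ℕ),
    (∀ D ∈ Bad, D ∈ (multiples W H).powersetCard k ∧ (count x P D : ℝ) < c ^ k * (P.card / Real.log x ^ k)) →
    (Bad.card : ℝ) ≤ ε * ((multiples W H).card : ℝ) ^ k := by
  classical
  obtain ⟨c, hc, hmain⟩ := denseT
  refine ⟨c, hc, fun k hk δ ε hδ hε => ?_⟩
  obtain ⟨j, rfl⟩ : ∃ j, k = j + 1 := ⟨k - 1, by omega⟩
  obtain ⟨w, hw, Λ, hΛ, h⟩ := hmain j δ ε hδ hε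
  obtain ⟨N₀, hN₀⟩ := eventually_atTop.1 h
  refine ⟨∏ p ∈ pz w, p, Λ, N₀, W_pos w, dvd_prod_of_mem _ (mem_pz.2 ⟨hw, Nat.prime_two⟩), hΛ,
    fun x hx P hP hPc H hH1 hH2 Bad hBad => ?_⟩
  rw [multiples_eq] at hBad ⊢
  exact hN₀ x hx H hH1 hH2 P hP hPc Bad hBad

end

open Classical in
/-- **Every positive proportion of the primes.**

(1) There is an absolute constant `c > 0` such that for all `k ≥ 1` and `δ, ε > 0` there are an even `W ≥ 1`, `Λ` and `x₀` with
the following property. Let `x ≥ x₀`, let `P` be ANY set of at least `δ x / log x` primes `p ≤ x`, and `Λ log x ≤ H ≤ x`. Then for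
all but at most `ε (H / W) ^ k` of the sets `D` of `k` multiples of `W` in `[1, H]` there are at least `c ^ k #P / (log x) ^ k`
primes `p` in `P` such that all the `p + d`, `d ∈ D`, have at most two prime factors, all of them at least `x ^ (1/7)`.

(2) In particular, for all `k ≥ 1` and `δ > 0` there are `c' > 0`, `Λ`, `x₀` such that for all `x ≥ x₀`, ANY set `P` of at least
`δ x / log x` primes `p ≤ x`, and `Λ log x ≤ H ≤ x`, for at least `c' H ^ k` of the sets `D` of `k` even numbers in `[1, H]`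
there are at least `c' x / (log x) ^ (k + 1)` primes `p` in `P` with this property. -/
theorem result :
    (∃ c : ℝ, 0 < c ∧ ∀ k : ℕ, 1 ≤ k → ∀ δ ε : ℝ, 0 < δ → 0 < ε → ∃ (W : ℕ) (Λ : ℝ) (x₀ : ℕ), 1 ≤ W ∧ 2 ∣ W ∧ 0 < Λ ∧
      ∀ x : ℕ, x₀ ≤ x → ∀ P ⊆ (Icc 1 x).filter Nat.Prime, δ * (x / Real.log x) ≤ P.card →
      ∀ H : ℕ, Λ * Real.log x ≤ H → H ≤ x →
        ((((multiples W H).powersetCard k).filter (fun D =>
          (count x P D : ℝ) < c ^ k * (P.card / Real.log x ^ k))).card : ℝ) ≤ ε * ((H : ℝ) / W) ^ k) ∧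
    ∀ k : ℕ, 1 ≤ k → ∀ δ : ℝ, 0 < δ → ∃ (c' Λ : ℝ) (x₀ : ℕ), 0 < c' ∧ 0 < Λ ∧
      ∀ x : ℕ, x₀ ≤ x → ∀ P ⊆ (Icc 1 x).filter Nat.Prime, δ * (x / Real.log x) ≤ P.card →
      ∀ H : ℕ, Λ * Real.log x ≤ H → H ≤ x →
        c' * (H : ℝ) ^ k ≤ ((((multiples 2 H).powersetCard k).filter (fun D =>
          c' * (x / Real.log x ^ (k + 1)) ≤ count x P D)).card : ℝ) := by
  obtain ⟨c, hc, hmain⟩ := core
  have hlim : Tendsto (fun N : ℕ => Real.log (N : ℝ)) atTop atTop :=
    Real.tendsto_log_atTop.comp (tendsto_natCast_atTop_atTop (R := ℝ))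
  obtain ⟨N₁, hN₁⟩ := eventually_atTop.1 (hlim.eventually_ge_atTop 1)
  refine ⟨⟨c, hc, fun k hk δ ε hδ hε => ?_⟩, fun k hk δ hδ => ?_⟩
  · obtain ⟨W, Λ, N₀, hW, hW2, hΛ, h⟩ := hmain k hk δ (ε / 2 ^ k) hδ (by positivity)
    have hWr : (0 : ℝ) < W := by exact_mod_cast hW
    refine ⟨W, max Λ W, max N₀ N₁, hW, hW2, lt_max_of_lt_left hΛ, fun N hN P hP hPc H hH1 hH2 => ?_⟩
    have hL1 := hN₁ N ((le_max_right _ _).trans hN)
    have hHΛ : Λ * Real.log N ≤ H := (mul_le_mul_of_nonneg_right (le_max_left _ _) (by linarith)).trans hH1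
    have hHW : (W : ℝ) ≤ H := by
      calc (W : ℝ) = W * 1 := (mul_one _).symm
        _ ≤ W * Real.log N := mul_le_mul_of_nonneg_left hL1 hWr.le
        _ ≤ max Λ W * Real.log N := mul_le_mul_of_nonneg_right (le_max_right _ _) (by linarith)
        _ ≤ H := hH1
    refine (h N ((le_max_left _ _).trans hN) P hP hPc H hHΛ hH2 _ fun M hM => mem_filter.1 hM).trans ?_
    have h1 : (1 : ℝ) ≤ H / W := by rwa [le_div_iff₀ hWr, one_mul]
    have h2 := (card_multiples hW H).1
    have h3 : ((multiples W H).card : ℝ) ^ k ≤ (2 * ((H : ℝ) / W)) ^ k :=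
      pow_le_pow_left₀ (Nat.cast_nonneg _) (by linarith) k
    calc ε / 2 ^ k * ((multiples W H).card : ℝ) ^ k ≤ ε / 2 ^ k * (2 * ((H : ℝ) / W)) ^ k :=
          mul_le_mul_of_nonneg_left h3 (by positivity)
      _ = ε * ((H : ℝ) / W) ^ k := by
          rw [mul_pow]
          field_simp
  · obtain ⟨W, Λ, N₀, hW, hW2, hΛ, h⟩ := hmain k hk δ (1 / (2 * 2 ^ k * (k.factorial : ℝ))) hδ (by positivity)
    have hWr : (1 : ℝ) ≤ W := by exact_mod_cast hW
    have hkr : (1 : ℝ) ≤ k := by exact_mod_cast hk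
    refine ⟨min (c ^ k * δ) (1 / (2 * 2 ^ k * (k.factorial : ℝ)) * (1 / (2 * W)) ^ k), max Λ (W * (2 * k + 1)),
      max N₀ N₁, lt_min (by positivity) (by positivity), lt_max_of_lt_left hΛ, fun N hN P hP hPc H hH1 hH2 => ?_⟩
    have hL1 := hN₁ N ((le_max_right _ _).trans hN)
    have hL0 : 0 < Real.log N := by linarith
    have hHΛ : Λ * Real.log N ≤ H := (mul_le_mul_of_nonneg_right (le_max_left _ _) (by linarith)).trans hH1
    have hHW : (W : ℝ) * (2 * k + 1) ≤ H := by
      calc (W : ℝ) * (2 * k + 1) = (W * (2 * k + 1)) * 1 := (mul_one _).symm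
        _ ≤ (W * (2 * k + 1)) * Real.log N := mul_le_mul_of_nonneg_left hL1 (by positivity)
        _ ≤ max Λ (W * (2 * k + 1)) * Real.log N := mul_le_mul_of_nonneg_right (le_max_right _ _) (by linarith)
        _ ≤ H := hH1
    have hHW' : (2 : ℝ) * k + 1 ≤ H / W := by rwa [le_div_iff₀ (by linarith), mul_comm]
    obtain ⟨q, hq⟩ : ∃ q : ℕ, q = (multiples W H).card := ⟨_, rfl⟩
    have hq1 : (H : ℝ) / W - 1 ≤ q := by rw [hq]; exact (card_multiples hW H).2
    have hq2 : 2 * (k : ℝ) ≤ q := by linarith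
    have hq3 : 2 * k ≤ q := by exact_mod_cast hq2
    have hq4 : (1 / (2 * W) : ℝ) * H ≤ q := by
      have : (1 / (2 * W) : ℝ) * H = (H / W) / 2 := by field_simp
      rw [this]
      linarith
    obtain ⟨B, hB⟩ : ∃ B, B = ((multiples W H).powersetCard k).filter (fun D =>
          (count N P D : ℝ) < c ^ k * (P.card / Real.log N ^ k)) := ⟨_, rfl⟩
    have hBc : (B.card : ℝ) ≤ 1 / (2 * 2 ^ k * (k.factorial : ℝ)) * (q : ℝ) ^ k := by
      rw [hq, hB]
      exact h N ((le_max_left _ _).trans hN) P hP hPc H hHΛ hH2 _ fun M hM => mem_filter.1 hM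
    have hT : (1 / (2 ^ k * (k.factorial : ℝ))) * (q : ℝ) ^ k ≤ (((multiples W H).powersetCard k).card : ℝ) := by
      rw [card_powersetCard, ← hq]
      have h1 := Nat.pow_le_choose (α := ℝ) k q
      refine le_trans ?_ h1
      have h2 : ((q : ℝ) / 2) ^ k ≤ ((q + 1 - k : ℕ) : ℝ) ^ k := by
        refine pow_le_pow_left₀ (by positivity) ?_ k
        rw [Nat.cast_sub (by omega)]
        push_cast
        linarith
      calc (1 / (2 ^ k * (k.factorial : ℝ))) * (q : ℝ) ^ k = ((q : ℝ) / 2) ^ k / (k.factorial : ℝ) := by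
            rw [div_pow]
            field_simp
        _ ≤ _ := div_le_div_of_nonneg_right h2 (by positivity)
    have hsub : (multiples W H).powersetCard k \ B ⊆ ((multiples 2 H).powersetCard k).filter (fun D =>
          min (c ^ k * δ) (1 / (2 * 2 ^ k * (k.factorial : ℝ)) * (1 / (2 * W)) ^ k) * (N / Real.log N ^ (k + 1)) ≤
            count N P D) := by
      intro M hM
      rw [Finset.mem_sdiff] at hM
      obtain ⟨h1, h2⟩ := hM
      rw [mem_filter]
      refine ⟨?_, ?_⟩
      · rw [mem_powersetCard] at h1 ⊢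
        refine ⟨fun m hm => ?_, h1.2⟩
        have h3 := h1.1 hm
        unfold multiples at h3 ⊢
        rw [mem_filter] at h3 ⊢
        exact ⟨h3.1, hW2.trans h3.2⟩
      · have h4 : ¬ (count N P M : ℝ) < c ^ k * (P.card / Real.log N ^ k) := fun h5 =>
          h2 (by rw [hB, mem_filter]; exact ⟨h1, h5⟩)
        rw [not_lt] at h4
        refine le_trans ?_ h4
        have h6 : δ * (N / Real.log N ^ (k + 1)) ≤ P.card / Real.log N ^ k := by
          rw [pow_succ, le_div_iff₀ (by positivity)]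
          refine le_trans (le_of_eq ?_) hPc
          field_simp
        calc _ ≤ c ^ k * δ * (N / Real.log N ^ (k + 1)) :=
              mul_le_mul_of_nonneg_right (min_le_left _ _) (by positivity)
          _ = c ^ k * (δ * (N / Real.log N ^ (k + 1))) := by ring
          _ ≤ _ := mul_le_mul_of_nonneg_left h6 (by positivity)
    have h1 := card_le_card hsub
    have h2 : ((multiples W H).powersetCard k).card ≤ ((multiples W H).powersetCard k \ B).card + B.card := by
      have := le_card_sdiff B ((multiples W H).powersetCard k)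
      omega
    have h3 : (((multiples W H).powersetCard k).card : ℝ) ≤
        ((((multiples 2 H).powersetCard k).filter (fun D =>
          min (c ^ k * δ) (1 / (2 * 2 ^ k * (k.factorial : ℝ)) * (1 / (2 * W)) ^ k) * (N / Real.log N ^ (k + 1)) ≤
            count N P D)).card : ℝ) + B.card := by
      exact_mod_cast h2.trans (Nat.add_le_add_right h1 _)
    have h4 : 1 / (2 * 2 ^ k * (k.factorial : ℝ)) * (q : ℝ) ^ k ≤
        ((((multiples 2 H).powersetCard k).filter (fun D =>
          min (c ^ k * δ) (1 / (2 * 2 ^ k * (k.factorial : ℝ)) * (1 / (2 * W)) ^ k) * (N / Real.log N ^ (k + 1)) ≤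
            count N P D)).card : ℝ) := by
      have h5 : 1 / (2 ^ k * (k.factorial : ℝ)) * (q : ℝ) ^ k = 2 * (1 / (2 * 2 ^ k * (k.factorial : ℝ)) * (q : ℝ) ^ k) := by
        field_simp
      linarith
    refine le_trans ?_ h4
    have h5 : ((1 / (2 * W) : ℝ) * H) ^ k ≤ (q : ℝ) ^ k := pow_le_pow_left₀ (by positivity) hq4 k
    calc min (c ^ k * δ) (1 / (2 * 2 ^ k * (k.factorial : ℝ)) * (1 / (2 * W)) ^ k) * (H : ℝ) ^ k ≤
          1 / (2 * 2 ^ k * (k.factorial : ℝ)) * (1 / (2 * W)) ^ k * (H : ℝ) ^ k :=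
            mul_le_mul_of_nonneg_right (min_le_right _ _) (by positivity)
      _ = 1 / (2 * 2 ^ k * (k.factorial : ℝ)) * ((1 / (2 * W) : ℝ) * H) ^ k := by rw [mul_pow]; ring
      _ ≤ _ := mul_le_mul_of_nonneg_left h5 (by positivity)

end Pool.Agent.Results.MP_485179_nt.DensePrimes
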