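import Mathlib
import Pool.Agent.J4.H38.SR.Prp

/-!
# The proportion of the prime tuples between two explicit multiples of the prediction

Let `A` be a subset of `[1, H]` with at least `η H` elements, `Λ log x ≤ H ≤ (log x) ^ C`, where `Λ` is large in terms
of `k, C, η, θ, ε`.  The `(k + 1)`-element subsets `T` of `A` for which the number of `m ≤ x` with all `m + t`, `t ∈ T`,
prime lies between `θ` times and `4 ^ k + ε` times the prediction `𝔖(T) x / (log x) ^ (k + 1)` carry at least the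
proportion `(1 - θ) / (4 ^ k - θ) - ε` of the singular series of all `(k + 1)`-element subsets of `A`, for EVERY
`0 < θ < 1`.

Method.  The lower bound for the mean (starting files, `Pool.Agent.TH891.BD.universal2`), and the upper bound
`4 ^ k + ε` for almost all sets of short shifts in `[1, H]`, `H ≥ Λ log x` (`Pool.Agent.J4.H38.SR.upper_quant`), together
with the second moment of the singular series and a uniform upper bound on the exceptional sets.
-/

set_option autoImplicit false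

open Finset

namespace Pool.Agent.Results.MP_485179_nt.ExplicitProportion

/-- the number of `1 ≤ m ≤ x` for which all `m + t`, `t ∈ T`, are prime -/
noncomputable def count (x : ℝ) (T : Finset ℕ) : ℕ :=
  ((Icc 1 ⌊x⌋₊).filter (fun m => ∀ t ∈ T, (m + t).Prime)).card

/-- the number of residue classes modulo `p` occupied by `T` -/
def nu (T : Finset ℕ) (p : ℕ) : ℕ := (T.image (· % p)).card

/-- the factor at `p` of the singular series -/
noncomputable def loc (T : Finset ℕ) (p : ℕ) : ℝ :=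
  (1 - (nu T p : ℝ) / p) / (1 - 1 / (p : ℝ)) ^ T.card

/-- the singular series of `T` -/
noncomputable def 𝔖 (T : Finset ℕ) : ℝ := ∏' p : Nat.Primes, loc T p

open Classical in
/-- the subsets `T` of `A` with `k + 1` elements and
`θ 𝔖(T) x / (log x) ^ (k + 1) ≤ count x T ≤ B 𝔖(T) x / (log x) ^ (k + 1)` -/
noncomputable def between (k : ℕ) (θ B x : ℝ) (A : Finset ℕ) : Finset (Finset ℕ) :=
  (A.powersetCard (k + 1)).filter (fun T =>
    θ * 𝔖 T * (x / Real.log x ^ (k + 1)) ≤ (count x T : ℝ) ∧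
    (count x T : ℝ) ≤ B * 𝔖 T * (x / Real.log x ^ (k + 1)))

open Pool.Agent.H387R2.Uni Pool.Agent.J4.H38.SR Filter

theorem CT_eq (T : Finset ℕ) : CT T = 𝔖 T := rfl

theorem count_eq {x : ℝ} {T : Finset ℕ} : count x T = cN ⌊x⌋₊ T := rfl

/-- The products `𝔖 T` converge and are positive for admissible `T`.  For all `k ≥ 1`, all real `C` and all `η > 0`,
`0 < θ < 1`, `ε > 0` there are `Λ` and `x₀` such that for all real `x ≥ x₀`, all integers `H` with
`Λ log x ≤ H ≤ (log x) ^ C` and all sets `A` of at least `η H` integers in `[1, H]`: the `(k + 1)`-element subsets `T`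
of `A` with `θ 𝔖(T) x / (log x) ^ (k + 1) ≤ count x T ≤ (4 ^ k + ε) 𝔖(T) x / (log x) ^ (k + 1)` carry at least the
proportion `(1 - θ) / (4 ^ k - θ) - ε` of the sum of `𝔖 T` over all `(k + 1)`-element subsets `T` of `A`. -/
theorem result :
    (∀ T : Finset ℕ, HasProd (fun p : Nat.Primes => loc T p) (𝔖 T) ∧
      ((∀ p : ℕ, p.Prime → nu T p < p) → 0 < 𝔖 T)) ∧
    ∀ k : ℕ, 1 ≤ k → ∀ C η θ ε : ℝ, 0 < η → 0 < θ → θ < 1 → 0 < ε → ∃ Λ x₀ : ℝ, ∀ x : ℝ, x₀ ≤ x →
      ∀ H : ℕ, Λ * Real.log x ≤ H → (H : ℝ) ≤ Real.log x ^ C →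
      ∀ A : Finset ℕ, A ⊆ Icc 1 H → η * H ≤ A.card →
      ((1 - θ) / (4 ^ k - θ) - ε) * ∑ T ∈ A.powersetCard (k + 1), 𝔖 T ≤
        ∑ T ∈ between k θ (4 ^ k + ε) x A, 𝔖 T := by
  classical
  refine ⟨fun T => ⟨CT_hasProd T, fun hT => CT_pos_of_adm hT⟩, fun k hk C η θ ε hη hθ hθ1 hε => ?_⟩
  obtain ⟨θ', hθ'⟩ : ∃ θ' : ℝ, θ' = θ + min (ε / 2) ((1 - θ) / 2) := ⟨_, rfl⟩
  have hm0 : 0 < min (ε / 2) ((1 - θ) / 2) := lt_min (by linarith) (by linarith)
  have hm1 : min (ε / 2) ((1 - θ) / 2) ≤ ε / 2 := min_le_left _ _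
  have hm2 : min (ε / 2) ((1 - θ) / 2) ≤ (1 - θ) / 2 := min_le_right _ _
  have hθθ' : θ < θ' := by linarith
  have hθ'1 : θ' < 1 := by linarith
  obtain ⟨Λ, hΛ, hmain⟩ := prop_N k hk (C := |C| + 1) (η := η) (θ := θ') (ε := ε / 2) hη (by linarith)
    hθ'1 (by positivity)
  obtain ⟨N₀, hN₀⟩ := eventually_atTop.1 (((hmain.and (ratio_ev (k + 1)
    (by positivity : (0 : ℝ) ≤ 4 ^ k) hε)).and (eventually_ge_atTop 3)).and
    ((Pool.Agent.Y822.ev_logN (eventually_ge_atTop (max 1 ((2 : ℝ) ^ |C|)))).and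
    (tendsto_natCast_atTop_atTop.eventually (eventually_ge_atTop (θ / (θ' - θ))))))
  refine ⟨Λ, N₀ + 1, fun x hx H hH1 hH2 A hA hcard => ?_⟩
  have hN₀0 : (0 : ℝ) ≤ N₀ := Nat.cast_nonneg _
  have hx0 : 0 ≤ x := by linarith
  obtain ⟨N, hN⟩ : ∃ N : ℕ, N = ⌊x⌋₊ := ⟨_, rfl⟩
  have hNx : (N : ℝ) ≤ x := by rw [hN]; exact Nat.floor_le hx0
  have hxN : x < N + 1 := by rw [hN]; exact Nat.lt_floor_add_one x
  have hNN : N₀ ≤ N := by
    have h1 : (N₀ : ℝ) < N + 1 := by linarith
    have h2 : N₀ < N + 1 := by exact_mod_cast h1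
    omega
  obtain ⟨⟨⟨h1, h2⟩, h3⟩, h4, h5⟩ := hN₀ N hNN
  have hN3 : (3 : ℝ) ≤ N := by exact_mod_cast h3
  have hL1 : 1 ≤ Real.log N := (le_max_left _ _).trans h4
  have hL2 : (2 : ℝ) ^ |C| ≤ Real.log N := (le_max_right _ _).trans h4
  have hL : 0 < Real.log N := by linarith
  have hLx : Real.log N ≤ Real.log x := Real.log_le_log (by linarith) hNx
  have hLx2 : Real.log x ≤ 2 * Real.log N := by
    calc Real.log x ≤ Real.log ((N : ℝ) ^ 2) := Real.log_le_log (by linarith) (by nlinarith)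
      _ = 2 * Real.log N := by rw [Real.log_pow]; norm_num
  have hLx0 : 0 < Real.log x := by linarith
  have hHC : (H : ℝ) ≤ Real.log N ^ (|C| + 1) := by
    refine hH2.trans ?_
    calc Real.log x ^ C ≤ Real.log x ^ |C| :=
          Real.rpow_le_rpow_of_exponent_le (by linarith) (le_abs_self C)
      _ ≤ (2 * Real.log N) ^ |C| := Real.rpow_le_rpow hLx0.le hLx2 (abs_nonneg C)
      _ = 2 ^ |C| * Real.log N ^ |C| := Real.mul_rpow (by norm_num) hL.le
      _ ≤ Real.log N * Real.log N ^ |C| :=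
          mul_le_mul_of_nonneg_right hL2 (Real.rpow_nonneg hL.le _)
      _ = Real.log N ^ (|C| + 1) := by
          rw [Real.rpow_add hL, Real.rpow_one, mul_comm]
  have key := h1 H (le_trans (mul_le_mul_of_nonneg_left hLx hΛ.le) hH1) hHC A hA hcard
  have hF0 : 0 ≤ ∑ T ∈ A.powersetCard (k + 1), 𝔖 T := sum_nonneg fun T _ => CT_nonneg T
  have h4k : (4 : ℝ) ≤ 4 ^ k := by
    calc (4 : ℝ) = 4 ^ 1 := (pow_one _).symm
      _ ≤ 4 ^ k := pow_le_pow_right₀ (by norm_num) hk
  have hcst : (1 - θ) / (4 ^ k - θ) - ε ≤ (1 - θ') / (4 ^ k - θ') - ε / 2 := by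
    have a1 : 0 < (4 : ℝ) ^ k - θ := by linarith
    have a2 : 0 < (4 : ℝ) ^ k - θ' := by linarith
    have e1 : (1 - θ) / ((4 : ℝ) ^ k - θ) - (1 - θ') / (4 ^ k - θ') =
        (4 ^ k - 1) * (θ' - θ) / ((4 ^ k - θ) * (4 ^ k - θ')) := by
      rw [div_sub_div _ _ a1.ne' a2.ne']
      congr 1
      ring
    have e2 : (4 ^ k - 1) * (θ' - θ) / (((4 : ℝ) ^ k - θ) * (4 ^ k - θ')) ≤ ε / 2 := by
      rw [div_le_iff₀ (by positivity)]
      have e3 : ((4 : ℝ) ^ k - 1) * (θ' - θ) ≤ (4 ^ k - θ) * (ε / 2) :=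
        mul_le_mul (by linarith) (by linarith) (by linarith) a1.le
      have e4 : ((4 : ℝ) ^ k - θ) * (ε / 2) * 1 ≤ (4 ^ k - θ) * (ε / 2) * (4 ^ k - θ') :=
        mul_le_mul_of_nonneg_left (by linarith) (by positivity)
      linarith
    linarith
  calc ((1 - θ) / (4 ^ k - θ) - ε) * ∑ T ∈ A.powersetCard (k + 1), 𝔖 T
      ≤ ((1 - θ') / (4 ^ k - θ') - ε / 2) * ∑ T ∈ A.powersetCard (k + 1), 𝔖 T :=
        mul_le_mul_of_nonneg_right hcst hF0
    _ ≤ _ := key
    _ ≤ _ := by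
        refine sum_le_sum_of_subset_of_nonneg (f := CT) ?_ fun T _ _ => CT_nonneg T
        intro T hT
        rw [mem_filter] at hT
        unfold between
        rw [mem_filter, count_eq, ← hN, ← CT_eq]
        obtain ⟨t1, t2, t3⟩ := hT
        have hCT := CT_nonneg T
        refine ⟨t1, le_trans ?_ t2, t3.trans ?_⟩
        · have h6 : θ * (x / Real.log x ^ (k + 1)) ≤ θ' * (N / Real.log N ^ (k + 1)) := by
            have h7 : x / Real.log x ^ (k + 1) ≤ (N + 1) / Real.log N ^ (k + 1) :=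
              div_le_div₀ (by positivity) hxN.le (by positivity) (pow_le_pow_left₀ hL.le hLx _)
            have h8 : θ * ((N : ℝ) + 1) ≤ θ' * N := by
              rw [div_le_iff₀ (by linarith)] at h5
              linarith
            calc θ * (x / Real.log x ^ (k + 1)) ≤ θ * ((N + 1) / Real.log N ^ (k + 1)) :=
                  mul_le_mul_of_nonneg_left h7 hθ.le
              _ = θ * (N + 1) / Real.log N ^ (k + 1) := by ring
              _ ≤ θ' * N / Real.log N ^ (k + 1) := div_le_div_of_nonneg_right h8 (by positivity)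
              _ = _ := by ring
          have h9 := mul_le_mul_of_nonneg_left h6 hCT
          linarith
        · have h9 := mul_le_mul_of_nonneg_left (h2 x hNx hxN.le) hCT
          linarith

end Pool.Agent.Results.MP_485179_nt.ExplicitProportion
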