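import Mathlib
import Pool.Agent.J4.H38.SR2.Fix5
import Pool.Agent.J4.H38.SR2.Uni3
import Pool.Agent.J4.H38.SR.Rl

/-!
# Primes `p` with `p + 2` and `p + h` almost primes, for almost all `h ≤ Λ log x`

The problem asks for infinitely many prime triplets with the patterns `{0, 2, 6}`, `{0, 4, 6}`. Here one shift `a` (for
instance `a = 2`, `4` or `6`) is FIXED, and the others run over very short intervals: for every `a ≥ 1` and almost all
sets `D` of `k` further shifts in `[1, H]`, where `H` is only a large multiple of `log x`, there are at least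
`c ^ (k + 1) 𝔖 x / (log x) ^ (k + 2)` primes `p ≤ x` such that `p + a` and all the `p + d`, `d ∈ D`, have at most three
prime factors, all of them at least `x ^ (1/8)`. Here `𝔖` is the singular series of Hardy and Littlewood of the pattern
`{0, a} ∪ D` and `c` is an absolute constant, which depends neither on `a` nor on `k`. For `k = 1` these are triplets
`p, p + a, p + d` with a fixed `a` and almost all `d ≤ Λ log x`.

Method: Kuhn's weights for `p + a`, for primes `p` such that all the `p + d` are free of the prime factors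
`≤ x ^ κ`. This needs the level of distribution `49/100` of these primes in the progressions `-a` modulo `d`, which is
derived from the theorem of Bombieri and Vinogradov and the fundamental lemma applied for each modulus `d`
(`Pool.Agent.J4.H38.SR2.Fix1`, `Fix3`). The further shifts are treated, one after the other, by the large sieve
inequality for the shifts (`Pool.Agent.J4.H38.SR2.Few`), whose Gram matrix is weighted by the indicator of `p`, `p + a`
and the `p + d` being free of small prime factors.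
-/

set_option autoImplicit false

open Finset

namespace Pool.Agent.Results.MP_dddec0_nt.FixedShift

/-- the number of residue classes modulo `p` occupied by `T` -/
def nu (T : Finset ℕ) (p : ℕ) : ℕ := (T.image (· % p)).card

/-- the factor at `p` of the singular series -/
noncomputable def loc (T : Finset ℕ) (p : ℕ) : ℝ :=
  (1 - (nu T p : ℝ) / p) / (1 - 1 / (p : ℝ)) ^ T.card

/-- the singular series of `T` -/
noncomputable def 𝔖 (T : Finset ℕ) : ℝ := ∏' p : Nat.Primes, loc T p

open Classical in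
/-- the number of the primes `p ≤ x` such that every `p + d`, `d ∈ D`, has at most three prime factors (counted with
multiplicity), all of them at least `x ^ (1/8)` -/
noncomputable def almost (x : ℕ) (D : Finset ℕ) : ℕ :=
  ((Icc 1 x).filter (fun p => p.Prime ∧ ∀ d ∈ D, (p + d).primeFactorsList.length ≤ 3 ∧
    ∀ q ∈ (p + d).primeFactors, (x : ℝ) ^ (1 / 8 : ℝ) ≤ q)).card

section
open Pool.Agent.H387R2.Uni Pool.Agent.J4.H38.SR Pool.Agent.J4.H38.SR2 Filter
open Pool.Agent.H373R2.T7 (pz mem_pz)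

theorem CT_eq (T : Finset ℕ) : CT T = 𝔖 T := rfl

theorem almost_eq {x : ℕ} {D : Finset ℕ} : almost x D = pi3 D x := rfl

/-- the distance of two values -/
lemma dd_natAbs (a b : ℕ) : dd (a, b) = ((b : ℤ) - a).natAbs := by
  unfold dd
  simp only
  rcases le_total a b with h | h
  · rw [max_eq_right h, min_eq_left h]; omega
  · rw [max_eq_left h, min_eq_right h]; omega

/-- the averages over an interval -/
lemma int_avg {C : ℝ} (hC : 0 ≤ C) : ∃ K : ℝ, 0 ≤ K ∧ ∀ H x y : ℕ, 3 ≤ H → Real.log x ≤ H → H ≤ x → ∀ c ≤ x,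
    ∑ m ∈ (Icc 1 H).filter (fun m => m ≠ c), gy y C (dd (c, m)) ≤ K * H := by
  obtain ⟨K, hK, h⟩ := poly_avg Polynomial.X (by rw [Polynomial.natDegree_X]) hC
  refine ⟨K, hK.le, fun H x y hH hx hHx c hc => ?_⟩
  refine le_trans (le_of_eq ?_) (h H y x hH hx (c : ℤ) fun m hm => ?_)
  · have e : (Icc 1 H).filter (fun m => m ≠ c) =
        (Icc 1 H).filter (fun m : ℕ => (Polynomial.X : Polynomial ℤ).eval (m : ℤ) ≠ c) := by
      refine filter_congr fun m _ => ?_
      rw [Polynomial.eval_X, Ne, Ne, Nat.cast_inj]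
    rw [e]
    refine sum_congr rfl fun m _ => ?_
    rw [Polynomial.eval_X, dd_natAbs]
  · rw [Polynomial.eval_X]
    have := (mem_Icc.1 hm).2
    omega

/-- the bound for the exceptional sets -/
theorem core : ∃ c : ℝ, 0 < c ∧ ∀ a k : ℕ, 1 ≤ a → 1 ≤ k → ∀ ε : ℝ, 0 < ε → ∃ Λ x₀ : ℝ, ∀ x : ℕ, x₀ ≤ x →
    ∀ H : ℕ, Λ * Real.log x ≤ H → H ≤ x → ∀ Bad : Finset (Finset ℕ),
    (∀ D ∈ Bad, D ∈ ((Icc 1 H).erase a).powersetCard k ∧ ¬ (𝔖 ({0, a} ∪ D) ≠ 0 →
      c ^ (k + 1) * 𝔖 ({0, a} ∪ D) * (x / Real.log x ^ (k + 2)) ≤ almost x (insert a D))) →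
    (Bad.card : ℝ) ≤ ε * (H : ℝ) ^ k := by
  classical
  obtain ⟨c, hc, h⟩ := almostF
  refine ⟨c, hc, fun a k ha hk ε hε => ?_⟩
  obtain ⟨k, rfl⟩ : ∃ j, k = j + 1 := ⟨k - 1, by omega⟩
  have hC0 : (0 : ℝ) ≤ (CKT k 2 : ℝ) := Nat.cast_nonneg _
  obtain ⟨K, hK, hav⟩ := int_avg hC0
  obtain ⟨Λ, hΛ, h⟩ := h k a ε K ha hε hK
  obtain ⟨N₀, hN₀⟩ := eventually_atTop.1 h
  refine ⟨max Λ 3, max N₀ (max a 3), fun x hx H hH hHx Bad hBad => ?_⟩
  have hx1 : (N₀ : ℝ) ≤ x := (le_max_left _ _).trans hx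
  have hx2 : (a : ℝ) ≤ x := ((le_max_left _ _).trans (le_max_right _ _)).trans hx
  have hx3 : (3 : ℝ) ≤ x := ((le_max_right _ _).trans (le_max_right _ _)).trans hx
  have hxa : a ≤ x := by exact_mod_cast hx2
  have hlx : 1 ≤ Real.log x := by
    have h1 : Real.exp 1 ≤ x := le_trans (by have := Real.exp_one_lt_d9; linarith) hx3
    have := Real.log_le_log (Real.exp_pos 1) h1
    rwa [Real.log_exp] at this
  have hM1 : Λ * Real.log x ≤ H := (mul_le_mul_of_nonneg_right (le_max_left _ _) (by linarith)).trans hH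
  have hM2 : 3 * Real.log x ≤ H := (mul_le_mul_of_nonneg_right (le_max_right _ _) (by linarith)).trans hH
  have hH3 : 3 ≤ H := by
    have : (3 : ℝ) ≤ H := by linarith
    exact_mod_cast this
  have hav' : ∀ y c : ℕ, c ≤ x → ∑ m ∈ (Icc 1 H).filter (fun m => m ≠ c), gy y (CKT k 2) (dd (c, m)) ≤ K * H :=
    fun y c hc => hav H x y hH3 (by linarith) hHx c hc
  have hg0 : ∀ (y : ℕ) (q : ℕ × ℕ), 0 ≤ gy y (CKT k 2) (dd q) := fun y q => gy_nonneg hC0 _
  have hAx : (Icc 1 H).erase a ⊆ Icc 1 x := fun m hm => by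
    have := mem_Icc.1 (mem_of_mem_erase hm)
    exact mem_Icc.2 ⟨this.1, by omega⟩
  have hAc : ((Icc 1 H).erase a).card ≤ H := by
    refine (card_le_card (erase_subset _ _)).trans ?_
    rw [Nat.card_Icc, Nat.add_sub_cancel]
  refine hN₀ x (by exact_mod_cast hx1) H hM1 ((Icc 1 H).erase a) hAx (notMem_erase _ _) hAc ?_ ?_ ?_ Bad ?_
  · intro y
    have e : ∑ q ∈ ((Icc 1 H).erase a).offDiag, gy y (CKT k 2) (dd q) ≤
        ∑ w ∈ Icc 1 H, ∑ m ∈ (Icc 1 H).filter (fun m => m ≠ w), gy y (CKT k 2) (dd (w, m)) := by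
      have e1 : ∑ w ∈ Icc 1 H, ∑ m ∈ (Icc 1 H).filter (fun m => m ≠ w), gy y (CKT k 2) (dd (w, m)) =
          ∑ q ∈ (Icc 1 H).offDiag, gy y (CKT k 2) (dd q) := by
        have e3 : (Icc 1 H).offDiag = (Icc 1 H ×ˢ Icc 1 H).filter (fun q => q.2 ≠ q.1) := by
          ext q
          rw [mem_offDiag, mem_filter, mem_product, and_assoc, ne_comm]
        rw [e3, sum_filter, sum_product]
        refine sum_congr rfl fun w _ => ?_
        rw [sum_filter]
      rw [e1]
      refine sum_le_sum_of_subset_of_nonneg ?_ fun q _ _ => hg0 y q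
      intro q hq
      rw [mem_offDiag] at hq ⊢
      exact ⟨mem_of_mem_erase hq.1, mem_of_mem_erase hq.2.1, hq.2.2⟩
    refine e.trans ((sum_le_sum fun w hw => hav' y w (by have := (mem_Icc.1 hw).2; omega)).trans (le_of_eq ?_))
    rw [sum_const, nsmul_eq_mul, Nat.card_Icc, Nat.add_sub_cancel]
    ring
  · intro y
    refine le_trans (sum_le_sum_of_subset_of_nonneg ?_ fun q _ _ => hg0 y (0, q)) (hav' y 0 (by omega))
    intro m hm
    have := mem_Icc.1 (mem_of_mem_erase hm)
    exact mem_filter.2 ⟨mem_of_mem_erase hm, by omega⟩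
  · intro y
    refine le_trans (sum_le_sum_of_subset_of_nonneg ?_ fun q _ _ => hg0 y (a, q)) (hav' y a hxa)
    intro m hm
    exact mem_filter.2 ⟨mem_of_mem_erase hm, ne_of_mem_erase hm⟩
  · intro D hD
    obtain ⟨b1, b2⟩ := hBad D hD
    have e0 : ({0, a} ∪ D : Finset ℕ) = Pool.Agent.Y822.pat (insert a D) := by
      unfold Pool.Agent.Y822.pat
      ext m
      simp only [mem_union, mem_insert, mem_singleton, or_assoc]
    rw [Classical.not_imp, not_le, ← CT_eq, almost_eq, e0] at b2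
    exact ⟨b1, adm_of_ne b2.1, b2.2⟩

end

open Classical in
/-- The products `𝔖 T` converge and are positive for admissible `T`. There is a constant `c > 0` such that for all
fixed `a ≥ 1`, `k ≥ 1` and `ε > 0` there are `Λ` and `x₀` with the following property. For all integers `x ≥ x₀` and
`H ≤ x` with `H ≥ Λ log x`, for all but at most `ε H ^ k` of the sets `D` of `k` elements of `[1, H] \ {a}`: if the
singular series `𝔖` of the pattern `{0, a} ∪ D` does not vanish, there are at least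
`c ^ (k + 1) 𝔖 x / (log x) ^ (k + 2)` primes `p ≤ x` such that `p + a` and all the `p + d`, `d ∈ D`, have at most three
prime factors, all of them at least `x ^ (1/8)`. -/
theorem result :
    (∀ T : Finset ℕ, HasProd (fun p : Nat.Primes => loc T p) (𝔖 T) ∧
      ((∀ p : ℕ, p.Prime → nu T p < p) → 0 < 𝔖 T)) ∧
    ∃ c : ℝ, 0 < c ∧ ∀ a k : ℕ, 1 ≤ a → 1 ≤ k → ∀ ε : ℝ, 0 < ε → ∃ Λ x₀ : ℝ, ∀ x : ℕ, x₀ ≤ x →
      ∀ H : ℕ, Λ * Real.log x ≤ H → H ≤ x →
        (((((Icc 1 H).erase a).powersetCard k).filter (fun D => ¬ (𝔖 ({0, a} ∪ D) ≠ 0 →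
          c ^ (k + 1) * 𝔖 ({0, a} ∪ D) * (x / Real.log x ^ (k + 2)) ≤ almost x (insert a D)))).card : ℝ) ≤
          ε * (H : ℝ) ^ k := by
  refine ⟨fun T => ⟨Pool.Agent.H387R2.Uni.CT_hasProd T, fun hT =>
    Pool.Agent.J4.H38.SR.CT_pos_of_adm hT⟩, ?_⟩
  obtain ⟨c, hc, hmain⟩ := core
  refine ⟨c, hc, fun a k ha hk ε hε => ?_⟩
  obtain ⟨Λ, x₀, h⟩ := hmain a k ha hk ε hε
  exact ⟨Λ, x₀, fun x hx H hH hHx => h x hx H hH hHx _ fun D hD => mem_filter.1 hD⟩

end Pool.Agent.Results.MP_dddec0_nt.FixedShift
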