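import Mathlib
import Pool.Agent.J4.H38.SR.LS4
import Pool.Agent.J4.H38.SR.Rl

/-!
# Tuples of primes and rough numbers: the linear sieve for almost all sets of very short shifts

Let `F`, `f` be the functions of the linear sieve, and `u > 4`.  If `Λ log x ≤ H ≤ x`, where `Λ` is large in terms of
`k, ε, u`, then for all but at most `ε H ^ k` of the `k`-element sets `D ⊆ [1, H]` with `𝔖({0} ∪ D) ≠ 0` the number of the
primes `p ≤ x` for which no `p + d`, `d ∈ D`, has a prime factor below `x ^ (1 / u)` lies between `f(u / 2) ^ k - ε` and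
`F(u / 2) ^ k + ε` times the expected number `𝔖({0} ∪ D) (x / log x) ∏ (1 - 1 / q) ^ k`, the product over the primes
`q < x ^ (1 / u)`.

Method.  The linear sieve of level `1 / 2` is applied to one shift after the other; the error terms are controlled for
almost all sets of shifts of an interval of length `Λ log x` (`Pool.Agent.J4.H38.SR.few_shortLD`).
-/

set_option autoImplicit false

open Finset

namespace Pool.Agent.Results.MP_485179_nt.LinearSieveConstants

/-- `F` and `f` are the functions of the linear sieve (for the upper and the lower bound).  They are determined by the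
properties below; here `A = 2 e ^ γ`. -/
structure LinearSieve (A : ℝ) (F f : ℝ → ℝ) : Prop where
  contF : ContinuousOn F (Set.Ici 1)
  contf : ContinuousOn f (Set.Ici 1)
  F_small : ∀ s, 1 ≤ s → s ≤ 3 → F s = A / s
  f_small : ∀ s, 1 ≤ s → s ≤ 2 → f s = 0
  F_eq : ∀ s, 3 ≤ s → s * F s = A + ∫ x in (3 : ℝ)..s, f (x - 1)
  f_eq : ∀ s, 2 ≤ s → s * f s = ∫ x in (2 : ℝ)..s, F (x - 1)
  F_lim : Filter.Tendsto F Filter.atTop (nhds 1)
  f_lim : Filter.Tendsto f Filter.atTop (nhds 1)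

/-- the number of residue classes modulo `p` occupied by `T` -/
def nu (T : Finset ℕ) (p : ℕ) : ℕ := (T.image (· % p)).card

/-- the factor at `p` of the singular series -/
noncomputable def loc (T : Finset ℕ) (p : ℕ) : ℝ :=
  (1 - (nu T p : ℝ) / p) / (1 - 1 / (p : ℝ)) ^ T.card

/-- the singular series of `T` -/
noncomputable def 𝔖 (T : Finset ℕ) : ℝ := ∏' p : Nat.Primes, loc T p

open Classical in
/-- the product of `1 - 1 / q` over the primes `q < x ^ (1 / u)` -/
noncomputable def V (u : ℝ) (x : ℕ) : ℝ :=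
  ∏ q ∈ (Icc 1 x).filter (fun q : ℕ => q.Prime ∧ (q : ℝ) < (x : ℝ) ^ (1 / u)), (1 - 1 / (q : ℝ))

open Classical in
/-- the number of the primes `p ≤ x` for which no `p + d`, `d ∈ D`, has a prime factor `q < x ^ (1 / u)` -/
noncomputable def rough (u : ℝ) (x : ℕ) (D : Finset ℕ) : ℕ :=
  ((Icc 1 x).filter (fun p => p.Prime ∧ ∀ d ∈ D, ∀ q : ℕ, q.Prime → (q : ℝ) < (x : ℝ) ^ (1 / u) → ¬ q ∣ p + d)).card

/-- the expected number -/
noncomputable def expected (u : ℝ) (x : ℕ) (D : Finset ℕ) : ℝ :=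
  𝔖 (insert 0 D) * (x / Real.log x) * V u x ^ D.card

open Classical in
/-- the `k`-element sets `D ⊆ [1, H]` with `𝔖({0} ∪ D) ≠ 0` for which `rough u x D` is not between `a` and `b` times
the expected number -/
noncomputable def outside (k : ℕ) (a b u : ℝ) (x H : ℕ) : Finset (Finset ℕ) :=
  ((Icc 1 H).powersetCard k).filter (fun D => 𝔖 (insert 0 D) ≠ 0 ∧
    ¬ (a * expected u x D ≤ rough u x D ∧ (rough u x D : ℝ) ≤ b * expected u x D))

open Pool.Agent.H387R2.Uni Pool.Agent.J4.H38.SR Filter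

theorem CT_eq (T : Finset ℕ) : CT T = 𝔖 T := rfl

theorem lin_eq {A : ℝ} {F f : ℝ → ℝ} (h : LinearSieve A F f) : LinSv A F f :=
  ⟨h.contF, h.contf, h.F_small, h.f_small, h.F_eq, h.f_eq, h.F_lim, h.f_lim⟩

theorem V_eq {u : ℝ} {x z : ℕ} (hu : 1 ≤ u) (hx : 1 ≤ x) (hz : Lim x (1 / u) z) :
    V u x = Pool.Agent.H373R2.T7.Vz z := by
  classical
  unfold V Pool.Agent.H373R2.T7.Vz
  congr 1
  ext q
  rw [mem_filter, mem_Icc, Pool.Agent.H373R2.T7.mem_pz, hz.iff q]
  constructor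
  · rintro ⟨_, h1, h2⟩
    exact ⟨h2, h1⟩
  · rintro ⟨h1, h2⟩
    refine ⟨⟨h2.pos, ?_⟩, h2, h1⟩
    have : (q : ℝ) ≤ x := by
      calc (q : ℝ) ≤ (x : ℝ) ^ (1 / u) := h1.le
        _ ≤ (x : ℝ) ^ (1 : ℝ) := by
            apply Real.rpow_le_rpow_of_exponent_le (by exact_mod_cast hx)
            rw [div_le_one (by linarith)]
            exact hu
        _ = x := Real.rpow_one _
    exact_mod_cast this

theorem rough_eq {u : ℝ} {x z : ℕ} {D : Finset ℕ} (hz : Lim x (1 / u) z) : (rough u x D : ℝ) = rgh z x D := by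
  classical
  unfold rough rgh
  rw [card_filter]
  push_cast
  refine sum_congr rfl fun n _ => ?_
  by_cases hn : n.Prime
  · have h1 : Pool.Agent.Y822.eP n = 1 := by unfold Pool.Agent.Y822.eP; rw [if_pos hn]
    rw [h1, one_mul]
    by_cases h : ∀ d ∈ D, ∀ q : ℕ, q.Prime → (q : ℝ) < (x : ℝ) ^ (1 / u) → ¬ q ∣ n + d
    · rw [if_pos ⟨hn, h⟩]
      symm
      refine prod_eq_one fun d hd => ?_
      unfold Pool.Agent.Y822.ro
      rw [if_pos]
      intro q hq hqz
      exact h d hd q hq ((hz.iff q).1 hqz)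
    · rw [if_neg (fun h' => h h'.2)]
      push Not at h
      obtain ⟨d, hd, q, hq, hqx, hqd⟩ := h
      symm
      refine prod_eq_zero hd ?_
      unfold Pool.Agent.Y822.ro
      rw [if_neg]
      intro h2
      exact h2 q hq ((hz.iff q).2 hqx) hqd
  · have h1 : Pool.Agent.Y822.eP n = 0 := by unfold Pool.Agent.Y822.eP; rw [if_neg hn]
    rw [h1, zero_mul, if_neg (fun h => hn h.1)]

/-- The functions of the linear sieve exist; the products `𝔖 T` converge and are positive for admissible `T`.  Let `F`,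
`f` be the functions of the linear sieve.  For all `k ≥ 1`, `u > 4` and `ε > 0` there are `Λ` and `x₀` such that for all
integers `x ≥ x₀` and all integers `H` with `Λ log x ≤ H ≤ x`, for all but at most `ε H ^ k` of the `k`-element sets
`D ⊆ [1, H]` with `𝔖({0} ∪ D) ≠ 0` the number of the primes `p ≤ x` for which no `p + d`, `d ∈ D`, has a prime factor
below `x ^ (1 / u)` lies between `f(u / 2) ^ k - ε` and `F(u / 2) ^ k + ε` times
`𝔖({0} ∪ D) (x / log x) ∏_{q < x ^ (1 / u)} (1 - 1 / q) ^ k`. -/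
theorem result :
    (∃ (A : ℝ) (F f : ℝ → ℝ), LinearSieve A F f) ∧
    (∀ T : Finset ℕ, HasProd (fun p : Nat.Primes => loc T p) (𝔖 T) ∧
      ((∀ p : ℕ, p.Prime → nu T p < p) → 0 < 𝔖 T)) ∧
    ∀ (A : ℝ) (F f : ℝ → ℝ), LinearSieve A F f → ∀ k : ℕ, 1 ≤ k → ∀ u ε : ℝ, 4 < u → 0 < ε →
      ∃ Λ x₀ : ℝ, ∀ x : ℕ, x₀ ≤ x → ∀ H : ℕ, Λ * Real.log x ≤ H → H ≤ x →
        ((outside k (f (u / 2) ^ k - ε) (F (u / 2) ^ k + ε) u x H).card : ℝ) ≤ ε * (H : ℝ) ^ k := by
  classical
  refine ⟨?_, fun T => ⟨CT_hasProd T, fun hT => CT_pos_of_adm hT⟩, ?_⟩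
  · obtain ⟨A, F, f, h⟩ := exists_linSv
    exact ⟨A, F, f, ⟨h.contF, h.contf, h.F_small, h.f_small, h.F_eq, h.f_eq, h.F_lim, h.f_lim⟩⟩
  intro A F f hFf k hk u ε hu hε
  obtain ⟨k, rfl⟩ : ∃ j, k = j + 1 := ⟨k - 1, by omega⟩
  have hu0 : 0 < u := by linarith
  have hα : 0 < 1 / u := by positivity
  have hα4 : 1 / u < 1 / 4 := by
    rw [div_lt_div_iff₀ hu0 (by norm_num)]
    linarith
  obtain ⟨Λ, hΛ, hmain⟩ := roughN (lin_eq hFf).sf hα hα4 k hε hε
  obtain ⟨N₀, hN₀⟩ := eventually_atTop.1 hmain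
  refine ⟨Λ, max N₀ 1, fun x hx H hH1 hH2 => ?_⟩
  have hx0 : N₀ ≤ x := by exact_mod_cast (le_max_left _ _).trans hx
  have hx1 : 1 ≤ x := by exact_mod_cast (le_max_right _ _).trans hx
  obtain ⟨z, hz⟩ := exists_lim x hx1 (1 / u)
  refine hN₀ x hx0 z hz H hH1 hH2 (outside (k + 1) (f (u / 2) ^ (k + 1) - ε) (F (u / 2) ^ (k + 1) + ε) u x H)
    fun D hD => ?_
  have hs : 1 / (2 * (1 / u)) = u / 2 := by field_simp
  rw [hs]
  unfold outside expected at hD
  rw [mem_filter, ← CT_eq, V_eq (by linarith) hx1 hz, rough_eq hz] at hD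
  obtain ⟨d1, d2, d3⟩ := hD
  rw [(mem_powersetCard.1 d1).2] at d3
  exact ⟨d1, adm_of_ne d2, d3⟩

end Pool.Agent.Results.MP_485179_nt.LinearSieveConstants
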