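import Mathlib
import Pool.Agent.J4.H38.SR2.Gold2

/-!
# Schinzel's Goldbach-type hypothesis for `G = x`, `F_i = x + d_i`: every `N` and almost all sets of shifts
`d_1, …, d_k` in `[1, H]`, where `H` is only a large multiple of `log N`

`N` is given (it is not averaged over). For all but `ε H^k` of the sets `D` of `k` elements of `[1, H]`,
`Λ log N ≤ H ≤ N`, the number of the positive integers `n` for which `N - n` is a prime and all `n + d`,
`d ∈ D`, have at most three prime factors, all of them at least `N^(1/8)`, is at least `c^k` times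
`𝔖(N) N / (log N)^(k+1)`, the number of the `n` for which `N - n` and all `n + d` should be primes according to
Schinzel's hypothesis; here `c` is an absolute constant and `𝔖(N)` the singular series of the hypothesis. The
number `k` is arbitrary.

The proof (`Pool.Agent.J4.H38.SR2`) is an argument of duality: for almost all shifts `t` in a short interval the
sequence `f(n)`, a product of the indicator of `N - n` being prime and of weights of the other shifts, is well
distributed in the residue classes `n ≡ -t` to the moduli up to `N^(1/2 - ε)` relative to the integers without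
small prime factors; as the shifts lie in an interval which is shorter than any power of `log N` above the first,
the Gram matrix has to be weighted by the indicator of the tuple `{-N} ∪ S` being free of small prime factors, and
averages of the singular series of these tuples over the sets `S` of the interval are needed, uniformly in `N`.
The theorem follows with Kuhn's weights, one shift after the other.
-/

set_option autoImplicit false

namespace Pool.Agent.Results.MP_0bf1d2_nt.ShortShiftsEveryN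

open Finset Filter

open Classical in
/-- `ω_N(p)`: the number of the residues `n mod p` with `F_1(n) ⋯ F_k(n) (N - n) ≡ 0 (mod p)`, where the
`F_i(n)` are the `n + d`, `d ∈ D` -/
noncomputable def omega (N : ℕ) (D : Finset ℕ) (p : ℕ) : ℕ :=
  ((range p).filter (fun n : ℕ => (p : ℤ) ∣ (∏ d ∈ D, ((n : ℤ) + d)) * ((N : ℤ) - n))).card

/-- `N` is admissible: the product of the `n + d` and of `N - n` has no fixed prime divisor -/
def Admissible (N : ℕ) (D : Finset ℕ) : Prop := ∀ p : ℕ, p.Prime → omega N D p < p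

/-- the factor of the singular series -/
noncomputable def factor (N : ℕ) (D : Finset ℕ) (p : ℕ) : ℝ :=
  (1 - (omega N D p : ℝ) / p) / (1 - 1 / (p : ℝ)) ^ (D.card + 1)

/-- Schinzel's singular series, a convergent product over the primes -/
noncomputable def singular (N : ℕ) (D : Finset ℕ) : ℝ := ∏' p : Nat.Primes, factor N D p

open Classical in
/-- the number of the positive integers `n ≤ N` such that `N - n` is prime and all `n + d`, `d ∈ D`, have at
most three prime factors (counted with multiplicity), all of them at least `N ^ (1/8)` -/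
noncomputable def count (N : ℕ) (D : Finset ℕ) : ℕ :=
  ((Icc 1 N).filter (fun n => (N - n).Prime ∧ ∀ d ∈ D, (n + d).primeFactorsList.length ≤ 3 ∧
    ∀ q ∈ (n + d).primeFactors, (N : ℝ) ^ (1 / 8 : ℝ) ≤ q)).card

section
open Pool.Agent.J4.H38.SR Pool.Agent.J4.H38.SR2 Pool.Agent.Y822
open Pool.Agent.H387R2.Uni (nuT Adm locT CT CT_hasProd)

lemma omega_eq {N : ℕ} (D : Finset ℕ) {p : ℕ} (hp : p.Prime) :
    omega N D p = nuT (pat (sh N D)) p := by
  classical
  have h1 : p ∣ (p - 1) * N + N := by
    have : (p - 1) * N + N = p * N := by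
      obtain ⟨q, rfl⟩ : ∃ q, p = q + 1 := ⟨p - 1, by have := hp.pos; omega⟩
      simp only [Nat.add_sub_cancel]
      ring
    rw [this]
    exact dvd_mul_right _ _
  rw [← nuT_base hp.pos h1 D, ← fT_eq _ hp.pos]
  unfold omega fT
  congr 1
  ext n
  rw [mem_filter, mem_filter]
  refine and_congr_right fun _ => ?_
  have hpI : Prime (p : ℤ) := Nat.prime_iff_prime_int.1 hp
  rw [hpI.dvd_mul, hpI.dvd_finsetProd_iff]
  have h2 : (p : ℤ) ∣ (N : ℤ) - n ↔ p ∣ n + (p - 1) * N := by
    rw [← Int.natCast_dvd_natCast (m := p) (n := n + (p - 1) * N)]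
    have h3 : ((n + (p - 1) * N : ℕ) : ℤ) = p * N - ((N : ℤ) - n) := by
      have h4 : ((p - 1 : ℕ) : ℤ) = (p : ℤ) - 1 := by
        rw [Nat.cast_sub hp.one_lt.le, Nat.cast_one]
      push_cast
      rw [h4]
      ring
    rw [h3]
    constructor
    · exact fun h => dvd_sub (dvd_mul_right _ _) h
    · intro h
      have := dvd_sub (dvd_mul_right (p : ℤ) (N : ℤ)) h
      rwa [sub_sub_cancel] at this
  rw [h2]
  constructor
  · rintro (⟨d, hd, h⟩ | h)
    · refine ⟨d, by simp [hd], ?_⟩
      have h5 : ((n + d : ℕ) : ℤ) = (n : ℤ) + d := by push_cast; rfl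
      rw [← h5, Int.natCast_dvd_natCast] at h
      exact h
    · exact ⟨(p - 1) * N, by simp, h⟩
  · rintro ⟨t, ht, h⟩
    rw [mem_union, mem_singleton] at ht
    rcases ht with rfl | ht
    · exact Or.inr h
    · refine Or.inl ⟨t, ht, ?_⟩
      have h5 : ((n + t : ℕ) : ℤ) = (n : ℤ) + t := by push_cast; rfl
      rw [← h5, Int.natCast_dvd_natCast]
      exact h

lemma adm_iff {N : ℕ} (D : Finset ℕ) : Admissible N D ↔ Adm (pat (sh N D)) := by
  unfold Admissible Adm
  constructor
  · intro h p hp
    rw [← omega_eq D hp]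
    exact h p hp
  · intro h p hp
    rw [omega_eq D hp]
    exact h p hp

lemma factor_eq {N : ℕ} (hN : 1 ≤ N) (D : Finset ℕ) {p : ℕ} (hp : p.Prime) :
    factor N D p = locT (pat (sh N D)) p := by
  unfold factor locT
  rw [omega_eq D hp, card_pat (zero_notMem_sh hN D), card_sh]

lemma singular_eq {N : ℕ} (hN : 1 ≤ N) (D : Finset ℕ) : singular N D = CT (pat (sh N D)) := by
  unfold singular CT
  exact tprod_congr fun p => factor_eq hN D p.2

lemma mult {N : ℕ} (hN : 1 ≤ N) (D : Finset ℕ) :
    Multipliable (fun p : Nat.Primes => factor N D p) := by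
  have h := (CT_hasProd (pat (sh N D))).multipliable
  have e : (fun p : Nat.Primes => factor N D p) = fun p : Nat.Primes => locT (pat (sh N D)) p := by
    funext p
    exact factor_eq hN D p.2
  rw [e]
  exact h

/-- sets of shifts which are `-N` modulo the small primes -/
lemma many (k : ℕ) (hk : 1 ≤ k) : ∃ c : ℝ, 0 < c ∧ ∃ H₀ : ℕ, ∀ N H : ℕ, 1 ≤ N → H₀ ≤ H →
    ∃ F : Finset (Finset ℕ), F ⊆ (Icc 1 H).powersetCard k ∧ (∀ D ∈ F, Admissible N D) ∧
      c * (H : ℝ) ^ k ≤ F.card := by
  classical
  obtain ⟨P, hP⟩ : ∃ P : ℕ, P = ∏ p ∈ (range (k + 2)).filter Nat.Prime, p := ⟨_, rfl⟩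
  have hP1 : 1 ≤ P := by
    have h : 0 < ∏ p ∈ (range (k + 2)).filter Nat.Prime, p :=
      prod_pos fun p hp => (mem_filter.1 hp).2.pos
    rw [hP]
    exact h
  have hPr : (1 : ℝ) ≤ P := by exact_mod_cast hP1
  refine ⟨(1 / (2 * P : ℝ)) ^ k / (k.factorial : ℝ), by positivity, 2 * P * (k + 1), fun N H hN hH => ?_⟩
  have hr : N % P < P := Nat.mod_lt _ hP1
  obtain ⟨φ, hφ⟩ : ∃ φ : ℕ → ℕ, ∀ j, φ j = P * j - N % P := ⟨_, fun _ => rfl⟩
  have hge : ∀ j, 1 ≤ j → P ≤ P * j := fun j hj => Nat.le_mul_of_pos_right P hj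
  have hinj : Set.InjOn φ (Set.Ici 1) := by
    intro j hj j' hj' h
    rw [Set.mem_Ici] at hj hj'
    rw [hφ, hφ] at h
    have h1 := hge j hj
    have h2 := hge j' hj'
    have h3 : P * j = P * j' := by omega
    exact Nat.eq_of_mul_eq_mul_left hP1 h3
  have hmod : ∀ j, 1 ≤ j → ∀ p ∈ (range (k + 2)).filter Nat.Prime, p ∣ φ j + N := by
    intro j hj p hp
    have hpP : p ∣ P := by rw [hP]; exact dvd_prod_of_mem _ hp
    refine hpP.trans ?_
    rw [hφ]
    have h1 := hge j hj
    have h2 : P * j - N % P + N = P * j + P * (N / P) := by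
      have h3 := Nat.mod_add_div N P
      omega
    rw [h2, ← Nat.mul_add]
    exact dvd_mul_right _ _
  refine ⟨((Icc 1 (H / P)).powersetCard k).image (fun S => S.image φ), ?_, ?_, ?_⟩
  · intro D hD
    obtain ⟨S, hS, rfl⟩ := mem_image.1 hD
    rw [mem_powersetCard] at hS ⊢
    refine ⟨?_, ?_⟩
    · intro d hd
      obtain ⟨j, hj, rfl⟩ := mem_image.1 hd
      have h1 := mem_Icc.1 (hS.1 hj)
      rw [mem_Icc, hφ]
      have h2 := hge j h1.1
      have h3 : P * j ≤ H := (Nat.mul_le_mul_left P h1.2).trans (Nat.mul_div_le H P)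
      omega
    · rw [card_image_of_injOn, hS.2]
      intro a ha b hb h
      exact hinj (mem_Icc.1 (hS.1 ha)).1 (mem_Icc.1 (hS.1 hb)).1 h
  · intro D hD
    obtain ⟨S, hS, rfl⟩ := mem_image.1 hD
    rw [mem_powersetCard] at hS
    intro p hp
    rw [omega_eq _ hp]
    by_cases hpk : p < k + 2
    · have h1 : nuT (pat (sh N (S.image φ))) p ≤ 1 := by
        unfold nuT
        refine card_le_one.2 fun a ha b hb => ?_
        have h2 : ∀ x ∈ (pat (sh N (S.image φ))).image (· % p), x = 0 := by
          intro x hx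
          obtain ⟨t, ht, rfl⟩ := mem_image.1 hx
          unfold pat at ht
          rw [mem_insert] at ht
          rcases ht with rfl | ht
          · exact Nat.zero_mod p
          · unfold sh at ht
            obtain ⟨d, hd, rfl⟩ := mem_image.1 ht
            obtain ⟨j, hj, rfl⟩ := mem_image.1 hd
            exact (Nat.dvd_iff_mod_eq_zero).1 (hmod j (mem_Icc.1 (hS.1 hj)).1 p
              (mem_filter.2 ⟨mem_range.2 hpk, hp⟩))
        rw [h2 a ha, h2 b hb]
      exact lt_of_le_of_lt h1 hp.one_lt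
    · have h1 := nuT_le_card (pat (sh N (S.image φ))) p
      have h2 : (pat (sh N (S.image φ))).card ≤ k + 1 := by
        refine (card_insert_le _ _).trans ?_
        have h3 : (sh N (S.image φ)).card ≤ k := by
          rw [card_sh]
          exact card_image_le.trans hS.2.le
        omega
      omega
  · rw [card_image_of_injOn]
    · rw [card_powersetCard, Nat.card_Icc, Nat.add_sub_cancel]
      have h1 := Nat.pow_le_choose (α := ℝ) k (H / P)
      refine le_trans ?_ h1
      have h2 : (1 / (2 * P : ℝ)) * H ≤ ((H / P + 1 - k : ℕ) : ℝ) := by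
        have h3 : (H : ℝ) / P ≤ (H / P : ℕ) + 1 := by
          rw [div_le_iff₀ (by linarith)]
          have := Nat.lt_div_mul_add (a := H) hP1
          have h4 : (H : ℝ) ≤ ((H / P * P + P : ℕ) : ℝ) := by exact_mod_cast this.le
          push_cast at h4
          linarith
        have h4 : 2 * (k + 1) ≤ H / P := by
          rw [Nat.le_div_iff_mul_le hP1]
          calc 2 * (k + 1) * P = 2 * P * (k + 1) := by ring
            _ ≤ H := hH
        have h5 : ((H / P + 1 - k : ℕ) : ℝ) = (H / P : ℕ) + 1 - k := by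
          rw [Nat.cast_sub (by omega)]
          push_cast
          ring
        have h6 : (2 * ((k : ℝ) + 1)) ≤ H / P := by
          rw [le_div_iff₀ (by linarith)]
          have : ((2 * P * (k + 1) : ℕ) : ℝ) ≤ H := by exact_mod_cast hH
          push_cast at this
          linarith
        have h7 : (1 / (2 * P : ℝ)) * H = (H / P) / 2 := by
          field_simp
        rw [h5, h7]
        linarith
      have h3 : (1 / (2 * P : ℝ)) ^ k / (k.factorial : ℝ) * (H : ℝ) ^ k =
          ((1 / (2 * P : ℝ)) * H) ^ k / (k.factorial : ℝ) := by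
        rw [mul_pow]; ring
      rw [h3]
      refine div_le_div_of_nonneg_right ?_ (by positivity)
      exact pow_le_pow_left₀ (by positivity) h2 k
    · intro S hS S' hS' h
      rw [mem_coe, mem_powersetCard] at hS hS'
      simp only at h
      have h1 : ∀ T T' : Finset ℕ, T ⊆ Icc 1 (H / P) → T' ⊆ Icc 1 (H / P) → T.image φ = T'.image φ →
          T ⊆ T' := by
        intro T T' hT hT' hh j hj
        have h2 : φ j ∈ T'.image φ := by rw [← hh]; exact mem_image_of_mem φ hj
        obtain ⟨j', hj', h3⟩ := mem_image.1 h2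
        have h4 : j' = j := hinj (mem_Icc.1 (hT' hj')).1 (mem_Icc.1 (hT hj)).1 h3
        rw [← h4]
        exact hj'
      exact Subset.antisymm (h1 S S' hS.1 hS'.1 h) (h1 S' S hS'.1 hS.1 h.symm)

end

open Classical in
/-- **Every `N`, almost all sets of shifts in `[1, H]`, `Λ log N ≤ H ≤ N`.**

(1) There is an absolute constant `c > 0` such that for all `k ≥ 1` and `ε > 0`, with a suitable `Λ`, for EVERY
large `N` and all `H` with `Λ log N ≤ H ≤ N`: for all but `ε H^k` of the sets `D` of `k` elements of `[1, H]`, if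
`N` is admissible for the system `n + d` (`d ∈ D`), `N - n`, then there are at least
`c^k 𝔖(N) N / (log N)^(k+1)` positive integers `n` such that `N - n` is prime and all `n + d`, `d ∈ D`, have at
most three prime factors, all of them at least `N ^ (1/8)`.

(2) In particular, for all `k ≥ 1` there are `c > 0` and `Λ` such that for EVERY large `N` and all `H` with
`Λ log N ≤ H ≤ N`, at least `c H^k` of the sets `D` of `k` elements of `[1, H]` are admissible for `N` and have at
least `c N / (log N)^(k+1)` such `n`.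

(3) The singular series converges. -/
theorem result :
    (∃ c : ℝ, 0 < c ∧ ∀ k : ℕ, 1 ≤ k → ∀ ε : ℝ, 0 < ε → ∃ (Λ : ℝ) (N₀ : ℕ), 0 < Λ ∧
      ∀ N : ℕ, N₀ ≤ N → ∀ H : ℕ, Λ * Real.log N ≤ H → H ≤ N →
        ((((Icc 1 H).powersetCard k).filter (fun D => Admissible N D ∧
          (count N D : ℝ) < c ^ k * singular N D * (N / Real.log N ^ (k + 1)))).card : ℝ) ≤
            ε * (H : ℝ) ^ k) ∧
    (∀ k : ℕ, 1 ≤ k → ∃ (c Λ : ℝ) (N₀ : ℕ), 0 < c ∧ 0 < Λ ∧
      ∀ N : ℕ, N₀ ≤ N → ∀ H : ℕ, Λ * Real.log N ≤ H → H ≤ N →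
        c * (H : ℝ) ^ k ≤ ((((Icc 1 H).powersetCard k).filter (fun D => Admissible N D ∧
          c * (N / Real.log N ^ (k + 1)) ≤ count N D)).card : ℝ)) ∧
    ∀ (N : ℕ) (D : Finset ℕ), 1 ≤ N → Multipliable (fun p : Nat.Primes => factor N D p) := by
  obtain ⟨c, hc, hmain⟩ := Pool.Agent.J4.H38.SR2.almostG
  have part1 : ∀ k : ℕ, 1 ≤ k → ∀ ε : ℝ, 0 < ε → ∃ (Λ : ℝ) (N₀ : ℕ), 0 < Λ ∧
      ∀ N : ℕ, N₀ ≤ N → ∀ H : ℕ, Λ * Real.log N ≤ H → H ≤ N →
        ((((Icc 1 H).powersetCard k).filter (fun D => Admissible N D ∧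
          (count N D : ℝ) < c ^ k * singular N D * (N / Real.log N ^ (k + 1)))).card : ℝ) ≤
            ε * (H : ℝ) ^ k := by
    intro k hk ε hε
    obtain ⟨j, rfl⟩ : ∃ j, k = j + 1 := ⟨k - 1, by omega⟩
    obtain ⟨Λ, hΛ, h⟩ := hmain j ε hε
    obtain ⟨N₀, hN₀⟩ := eventually_atTop.1 h
    refine ⟨Λ, max N₀ 1, hΛ, fun N hN H hH1 hH2 => ?_⟩
    have hN1 : 1 ≤ N := (le_max_right _ _).trans hN
    refine hN₀ N ((le_max_left _ _).trans hN) H hH1 hH2 _ fun D hD => ?_
    rw [mem_filter] at hD
    refine ⟨hD.1, (adm_iff D).1 hD.2.1, ?_⟩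
    have h1 := hD.2.2
    rw [singular_eq hN1] at h1
    exact h1
  refine ⟨⟨c, hc, part1⟩, fun k hk => ?_, fun N D hN => mult hN D⟩
  obtain ⟨c₁, hc₁, H₀, hF⟩ := many k hk
  obtain ⟨cp, hcp, hlow⟩ := Pool.Agent.Y822.PT_low k
  obtain ⟨Λ, N₀, hΛ, h1⟩ := part1 k hk (c₁ / 2) (by positivity)
  obtain ⟨N₂, hN₂⟩ := eventually_atTop.1 (Pool.Agent.Y822.ev_logN (eventually_ge_atTop ((H₀ : ℝ) / Λ)))
  refine ⟨min (c₁ / 2) (c ^ k * cp), Λ, max (max N₀ N₂) 2, lt_min (by positivity) (by positivity), hΛ,
    fun N hN H hH1 hH2 => ?_⟩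
  have hNN₀ : N₀ ≤ N := ((le_max_left _ _).trans (le_max_left _ _)).trans hN
  have hNN₂ : N₂ ≤ N := ((le_max_right _ _).trans (le_max_left _ _)).trans hN
  have hN2 : 2 ≤ N := (le_max_right _ _).trans hN
  have hL0 : 0 < Real.log N := Real.log_pos (by exact_mod_cast (by omega : 1 < N))
  have hHH₀ : H₀ ≤ H := by
    have h2 := hN₂ N hNN₂
    rw [div_le_iff₀ hΛ] at h2
    exact_mod_cast (h2.trans (le_of_eq (mul_comm _ _))).trans hH1
  obtain ⟨F, hF1, hF2, hF3⟩ := hF N H (by omega) hHH₀
  have h2 := h1 N hNN₀ H hH1 hH2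
  set B := ((Icc 1 H).powersetCard k).filter (fun D => Admissible N D ∧
          (count N D : ℝ) < c ^ k * singular N D * (N / Real.log N ^ (k + 1))) with hB
  have h3 : F \ B ⊆ ((Icc 1 H).powersetCard k).filter (fun D => Admissible N D ∧
          min (c₁ / 2) (c ^ k * cp) * (N / Real.log N ^ (k + 1)) ≤ count N D) := by
    intro D hD
    rw [Finset.mem_sdiff] at hD
    obtain ⟨hDF, hDB⟩ := hD
    have hadm := hF2 D hDF
    rw [mem_filter]
    refine ⟨hF1 hDF, hadm, ?_⟩
    have h4 : ¬ (count N D : ℝ) < c ^ k * singular N D * (N / Real.log N ^ (k + 1)) := fun h =>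
      hDB (by rw [hB, mem_filter]; exact ⟨hF1 hDF, hadm, h⟩)
    rw [not_lt] at h4
    refine le_trans ?_ h4
    have h5 : cp ≤ singular N D := by
      rw [singular_eq (by omega)]
      refine (hlow _ ?_ ((adm_iff D).1 hadm)).2
      rw [Pool.Agent.Y822.card_pat (Pool.Agent.J4.H38.SR2.zero_notMem_sh (by omega) D),
        Pool.Agent.J4.H38.SR2.card_sh, (mem_powersetCard.1 (hF1 hDF)).2]
    have h6 : min (c₁ / 2) (c ^ k * cp) ≤ c ^ k * singular N D :=
      (min_le_right _ _).trans (mul_le_mul_of_nonneg_left h5 (by positivity))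
    exact mul_le_mul_of_nonneg_right h6 (by positivity)
  have h4 := card_le_card h3
  have h5 : F.card - B.card ≤ (F \ B).card := le_card_sdiff B F
  have h6 : (F.card : ℝ) - B.card ≤ ((F \ B).card : ℝ) := by
    have : F.card ≤ (F \ B).card + B.card := by omega
    have h7 : (F.card : ℝ) ≤ (F \ B).card + B.card := by exact_mod_cast this
    linarith
  have h7 : ((F \ B).card : ℝ) ≤ ((((Icc 1 H).powersetCard k).filter (fun D => Admissible N D ∧
          min (c₁ / 2) (c ^ k * cp) * (N / Real.log N ^ (k + 1)) ≤ count N D)).card : ℝ) := by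
    exact_mod_cast h4
  refine le_trans ?_ (h6.trans h7)
  have h8 : min (c₁ / 2) (c ^ k * cp) * (H : ℝ) ^ k ≤ c₁ / 2 * (H : ℝ) ^ k :=
    mul_le_mul_of_nonneg_right (min_le_left _ _) (by positivity)
  linarith

end Pool.Agent.Results.MP_0bf1d2_nt.ShortShiftsEveryN
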